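import Mathlib

/-!
# M21: an adjunction between exact functors induces an adjunction on derived categories
-/

open CategoryTheory CategoryTheory.Limits

noncomputable section

namespace M21

universe w₁ w₂ v₁ v₂ u₁ u₂

variable {A : Type u₁} [Category.{v₁} A] [Abelian A] 
  {B : Type u₂} [Category.{v₂} B] [Abelian B] 
  {F : A ⥤ B} {G : B ⥤ A} [F.Additive] [G.Additive]

/-- the adjunction on cochain complexes -/
def complexAdj (adj : F ⊣ G) : F.mapHomologicalComplex (ComplexShape.up ℤ) ⊣
    G.mapHomologicalComplex (ComplexShape.up ℤ) :=
  Adjunction.mkOfUnitCounit
    { unit :=
        { app := fun K =>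
            { f := fun i => adj.unit.app (K.X i)
              comm' := fun i j _ => (adj.unit.naturality (K.d i j)).symm }
          naturality := fun K L f => by
            ext i
            exact adj.unit.naturality (f.f i) }
      counit :=
        { app := fun K =>
            { f := fun i => adj.counit.app (K.X i)
              comm' := fun i j _ => (adj.counit.naturality (K.d i j)).symm }
          naturality := fun K L f => by
            ext i
            exact adj.counit.naturality (f.f i) }
      left_triangle := by
        ext K i
        simp
        exact adj.left_triangle_components (K.X i)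
      right_triangle := by
        ext K i
        simp
        exact adj.right_triangle_components (K.X i) }

variable [PreservesFiniteLimits F] [PreservesFiniteColimits F]
  [PreservesFiniteLimits G] [PreservesFiniteColimits G]
  [HasDerivedCategory.{w₁} A] [HasDerivedCategory.{w₂} B]

instance : CatCommSq (F.mapHomologicalComplex (ComplexShape.up ℤ)) DerivedCategory.Q
    DerivedCategory.Q F.mapDerivedCategory := ⟨F.mapDerivedCategoryFactors.symm⟩

/-- the adjunction on derived categories -/
def derivedAdj (adj : F ⊣ G) : F.mapDerivedCategory ⊣ G.mapDerivedCategory :=
  (complexAdj adj).localization DerivedCategory.Q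
    (HomologicalComplex.quasiIso A (ComplexShape.up ℤ)) DerivedCategory.Q
    (HomologicalComplex.quasiIso B (ComplexShape.up ℤ)) F.mapDerivedCategory G.mapDerivedCategory

end M21
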