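import Pool.Agent.H.MP_21b43d_ag.S.SkyIso
import Pool.Agent.H.MP_21b43d_ag.S.Adj
import Pool.Agent.H.MP_21b43d_ag.B.DerNat

/-!
# M21: stalks and skyscrapers on derived categories
-/

open CategoryTheory CategoryTheory.Limits AlgebraicGeometry TopologicalSpace Opposite

noncomputable section

namespace M21

/-- the standard construction of the derived category of modules -/
instance instHasDerivedCategoryModuleCat (R : Type) [Ring R] :
    HasDerivedCategory.{1} (ModuleCat.{0} R) := HasDerivedCategory.standard _

/-- the derived category of modules over a ring -/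
abbrev DR (R : Type) [Ring R] := DerivedCategory (ModuleCat.{0} R)

variable {X : Scheme.{0}}

/-- the stalk functor on derived categories -/
abbrev stalkD (x : X) : DMod X ⥤ DR (X.presheaf.stalk x) := (stalkMod X x).mapDerivedCategory

/-- the skyscraper functor on derived categories -/
abbrev skyDer (x : X) : DR (X.presheaf.stalk x) ⥤ DMod X := (skyFun x).mapDerivedCategory

/-- stalk and skyscraper are adjoint -/
def adjD (x : X) : stalkD x ⊣ skyDer x := derivedAdj (stalkSkyAdj x)

/-- the residue field as an object of the derived category of the local ring -/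
abbrev kapD (x : X) : DR (X.presheaf.stalk x) :=
  (DerivedCategory.singleFunctor (ModuleCat.{0} (X.presheaf.stalk x)) 0).obj (kap x)

/-- the skyscraper sheaf in the derived category -/
def skyDIso (x : X) : skyD x ≅ (skyDer x).obj (kapD x) :=
  (DerivedCategory.singleFunctor X.Modules 0).mapIso (skyIso x) ≪≫
    ((skyFun x).mapDerivedCategorySingleFunctor 0).symm.app (kap x)

/-- shifts of the skyscraper sheaf in the derived category -/
def skyDShiftIso (x : X) (i : ℤ) : (skyD x)⟦i⟧ ≅ (skyDer x).obj ((kapD x)⟦i⟧) :=
  (shiftFunctor (DMod X) i).mapIso (skyDIso x) ≪≫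
    ((skyDer x).commShiftIso i).symm.app (kapD x)

/-- morphisms to shifts of the skyscraper sheaf are morphisms of the stalk to shifts of the residue
field -/
def homSkyEquiv (x : X) (A : DMod X) (i : ℤ) :
    (A ⟶ (skyD x)⟦i⟧) ≃+ ((stalkD x).obj A ⟶ (kapD x)⟦i⟧) where
  toFun f := ((adjD x).homEquiv A ((kapD x)⟦i⟧)).symm (f ≫ (skyDShiftIso x i).hom)
  invFun g := (adjD x).homEquiv A ((kapD x)⟦i⟧) g ≫ (skyDShiftIso x i).inv
  left_inv f := by simp
  right_inv g := by simp
  map_add' f g := by
    rw [Preadditive.add_comp]
    simp only [Adjunction.homEquiv_counit, Functor.map_add, Preadditive.add_comp]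

/-- the cohomology of the stalk is the stalk of the cohomology -/
def stalkHomology (x : X) (n : ℤ) :
    stalkD x ⋙ DerivedCategory.homologyFunctor (ModuleCat.{0} (X.presheaf.stalk x)) n ≅
      DerivedCategory.homologyFunctor X.Modules n ⋙ stalkMod X x :=
  derHomology (stalkMod X x) n

end M21
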