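import Pool.Agent.H.MP_21b43d_ag.S.CohStalk

/-!
# M21: nonzero maps from an object to its top cohomology (B10 (i))
-/

open CategoryTheory CategoryTheory.Limits CategoryTheory.Pretriangulated AlgebraicGeometry
  TopologicalSpace Opposite

noncomputable section

namespace M21

section

universe w v u

variable {C : Type u} [Category.{v} C] [Abelian C] [HasDerivedCategory.{w} C]

open DerivedCategory

/-- A nonzero map from the top cohomology of `B` gives a nonzero map from `B`. -/
theorem exists_map_single (B : DerivedCategory C) (n : ℤ) [B.IsLE n] {N : C}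
    (h : (homologyFunctor C n).obj B ⟶ N) (hh : h ≠ 0) :
    ∃ g : B ⟶ (singleFunctor C n).obj N, g ≠ 0 := by
  obtain ⟨K, hK, ⟨e0⟩⟩ := exists_iso_Q_obj_of_isLE B n
  have hz : IsZero (K.X (n + 1)) := K.isZero_of_isStrictlyLE n (n + 1) (by lia)
  have hd : K.d n (n + 1) = 0 := hz.eq_of_tgt _ _
  have hnx : (ComplexShape.up ℤ).next n = n + 1 := by simp
  have i1 := K.isIso_iCycles n (n + 1) hnx hd
  have i2 := K.isIso_homologyι n (n + 1) hnx hd
  let e : K.homology n ≅ (homologyFunctor C n).obj B :=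
    (homologyFunctorFactors C n).symm.app K ≪≫ (homologyFunctor C n).mapIso e0.symm
  let s : K.X n ⟶ N := K.pOpcycles n ≫ inv (K.homologyι n) ≫ e.hom ≫ h
  let f' : K ⟶ (HomologicalComplex.single C (ComplexShape.up ℤ) n).obj N :=
    HomologicalComplex.mkHomToSingle s (fun i _ => by simp [s])
  have hf' : f'.f n = s ≫ (HomologicalComplex.singleObjXSelf (ComplexShape.up ℤ) n N).inv :=
    HomologicalComplex.mkHomToSingle_f _ _
  refine ⟨e0.hom ≫ Q.map f' ≫ (singleFunctorIsoCompQ C n).inv.app N, fun hg => hh ?_⟩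
  have h1 : Q.map f' = 0 := by
    have e1 : e0.hom ≫ Q.map f' ≫ (singleFunctorIsoCompQ C n).inv.app N = e0.hom ≫ 0 := by
      rw [hg, comp_zero]
    have e2 := (cancel_epi e0.hom).1 e1
    have e3 : Q.map f' ≫ (singleFunctorIsoCompQ C n).inv.app N =
        0 ≫ (singleFunctorIsoCompQ C n).inv.app N := by
      rw [e2, zero_comp]
    exact (cancel_mono ((singleFunctorIsoCompQ C n).inv.app N)).1 e3
  have h2 : HomologicalComplex.homologyMap f' n = 0 := by
    have := homologyFunctorFactors_hom_naturality f' n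
    rw [h1, Functor.map_zero, zero_comp] at this
    exact (cancel_epi ((homologyFunctorFactors C n).hom.app K)).1 (this.symm.trans comp_zero.symm)
  have h3 : HomologicalComplex.cyclesMap f' n = 0 := by
    have hpr : (ComplexShape.up ℤ).prev n = n - 1 := by simp
    have := ((HomologicalComplex.single C (ComplexShape.up ℤ) n).obj N).isIso_homologyπ (n - 1) n
      hpr (by simp)
    rw [← cancel_mono (((HomologicalComplex.single C (ComplexShape.up ℤ) n).obj N).homologyπ n),
      ← HomologicalComplex.homologyπ_naturality, h2, comp_zero, zero_comp]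
  have h4 : f'.f n = 0 := by
    rw [← cancel_epi (K.iCycles n), ← HomologicalComplex.cyclesMap_i, h3, zero_comp, comp_zero]
  have h5 : s = 0 := by
    rw [← cancel_mono (HomologicalComplex.singleObjXSelf (ComplexShape.up ℤ) n N).inv, ← hf', h4,
      zero_comp]
  rw [← cancel_epi e.hom, ← cancel_epi (inv (K.homologyι n)), ← cancel_epi (K.pOpcycles n)]
  simpa [s] using h5

end

variable {X : Scheme.{0}}

/-- the stalk of a cohomology sheaf is the cohomology of the stalk -/
def stalkHH (x : X) (n : ℤ) (A : DMod X) :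
    (DerivedCategory.homologyFunctor (ModuleCat.{0} (X.presheaf.stalk x)) n).obj
      ((stalkD x).obj A) ≅ (stalkMod X x).obj (hh n A) :=
  (stalkHomology x n).app A

theorem isZero_stalkHH_iff (x : X) (n : ℤ) (A : DMod X) :
    IsZero ((DerivedCategory.homologyFunctor (ModuleCat.{0} (X.presheaf.stalk x)) n).obj
      ((stalkD x).obj A)) ↔ ZeroAt (hh n A) x :=
  (stalkHH x n A).isZero_iff.trans (zeroAt_iff _ x).symm

/-- **B10 (i)**: if `H^t(A)` is not zero at `x`, then for some `t' ≥ t` there is a nonzero map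
from `A` to the skyscraper sheaf in degree `t'`. -/
theorem exists_to_skyD (x : X) (A : DMod X) (hA : dbCoh X A) (t : ℤ) (ht : ¬ ZeroAt (hh t A) x) :
    ∃ t' : ℤ, t ≤ t' ∧ ∃ f : A ⟶ (skyD x)⟦-t'⟧, f ≠ 0 := by
  obtain ⟨⟨a, b, -, hb⟩, hcoh⟩ := hA
  have hbdd : ∃ b : ℤ, ∀ i : ℤ, ¬ ZeroAt (hh i A) x → i ≤ b := by
    refine ⟨b, fun i hi => ?_⟩
    by_contra hlt
    exact hi ((zeroAt_iff _ x).2 (((stalkMod X x).map_isZero
      (A.isZero_of_isLE b i (by lia)))))
  obtain ⟨t', ht', hmax⟩ := Int.exists_greatest_of_bdd hbdd ⟨t, ht⟩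
  refine ⟨t', hmax t ht, ?_⟩
  have hle : ((stalkD x).obj A).IsLE t' := by
    rw [DerivedCategory.isLE_iff]
    intro i hi
    rw [isZero_stalkHH_iff]
    by_contra hne
    exact absurd (hmax i hne) (by lia)
  have hfin : Module.Finite (X.presheaf.stalk x) ((stalkMod X x).obj (hh t' A)) :=
    (hcoh t').finite_stalk x
  obtain ⟨h, hh0⟩ := exists_to_kap x ((stalkMod X x).obj (hh t' A))
    (fun hz => ht' ((zeroAt_iff _ x).2 hz))
  obtain ⟨g, hg⟩ := exists_map_single ((stalkD x).obj A) t' ((stalkHH x t' A).hom ≫ h)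
    (fun h0 => hh0 ((cancel_epi (stalkHH x t' A).hom).1 (h0.trans comp_zero.symm)))
  let e : (kapD x)⟦-t'⟧ ≅ (DerivedCategory.singleFunctor _ t').obj (kap x) :=
    ((DerivedCategory.singleFunctors _).shiftIso (-t') t' 0 (by lia)).app (kap x)
  refine ⟨(homSkyEquiv x A (-t')).symm (g ≫ e.inv), fun h0 => hg ?_⟩
  have h1 : g ≫ e.inv = 0 := (homSkyEquiv x A (-t')).symm.injective (h0.trans (map_zero _).symm)
  exact (cancel_mono e.inv).1 (h1.trans zero_comp.symm)

end M21
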