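import Pool.Agent.H.MP_21b43d_ag.S.DStalk

/-!
# M21: endomorphisms of skyscraper sheaves are zero or isomorphisms
-/

open CategoryTheory CategoryTheory.Limits AlgebraicGeometry TopologicalSpace Opposite

noncomputable section

namespace M21

variable {X : Scheme.{0}}

lemma skyEv_bijective (x : X) (N : Type) [AddCommGroup N] [Module (X.presheaf.stalk x) N] :
    Function.Bijective (skyEv x N) := by
  constructor
  · rw [injective_iff_map_eq_zero]
    intro t ht
    obtain ⟨U, hxU, s, rfl⟩ := exists_gm (skyObj x N) x t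
    rw [skyEv_gm] at ht
    have h1 : s = 0 := by
      apply (skySec x N U).injective
      funext h
      exact ht
    rw [h1]
    exact gm_zero _ x U hxU
  · intro n
    have hx : x ∈ (⊤ : X.Opens) := trivial
    refine ⟨gm (skyObj x N) x ⊤ hx ((skySec x N ⊤).symm (fun _ => n)), ?_⟩
    exact skyEv_gm x N ⊤ hx _

/-- the evaluation as a morphism -/
def skyEvH (x : X) (N : ModuleCat.{0} (X.presheaf.stalk x)) :
    (skyFun x ⋙ stalkMod X x).obj N ⟶ (𝟭 (ModuleCat.{0} (X.presheaf.stalk x))).obj N :=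
  ModuleCat.ofHom (skyEv x N)

lemma counit_app (x : X) (N : ModuleCat.{0} (X.presheaf.stalk x)) :
    (stalkSkyAdj x).counit.app N = skyEvH x N := by
  have h := (stalkSkyAdj x).homEquiv_counit (X := (skyFun x).obj N) (Y := N) (g := 𝟙 _)
  have h1 : (stalkMod X x).map (𝟙 ((skyFun x).obj N)) = 𝟙 _ := (stalkMod X x).map_id _
  have h2 : ((stalkSkyAdj x).homEquiv ((skyFun x).obj N) N).symm (𝟙 ((skyFun x).obj N)) =
    (stalkMod X x).map (𝟙 ((skyFun x).obj N)) ≫ skyEvH x N := by
    rw [stalkSkyAdj, Adjunction.mkOfHomEquiv_homEquiv]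
    rfl
  rw [h2, h1, Category.id_comp, Category.id_comp] at h
  exact h.symm

instance isIso_counit (x : X) : IsIso (stalkSkyAdj x).counit := by
  rw [NatTrans.isIso_iff_isIso_app]
  intro N
  rw [counit_app]
  exact (ConcreteCategory.isIso_iff_bijective (skyEvH x N)).2 (skyEv_bijective x N)

instance (x : X) : (skyFun (X := X) x).Full := (stalkSkyAdj x).fullyFaithfulROfIsIsoCounit.full

instance (x : X) : (skyFun (X := X) x).Faithful :=
  (stalkSkyAdj x).fullyFaithfulROfIsIsoCounit.faithful

lemma kap_endo (x : X) (φ : kap x ⟶ kap x) : φ = 0 ∨ IsIso φ := by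
  have h1 : ∀ c : X.residueField x, φ c = c * φ (1 : X.residueField x) := by
    intro c
    obtain ⟨r, rfl⟩ := (Ideal.Quotient.mk_surjective : Function.Surjective (X.residue x).hom) c
    have h2 : φ (r • (1 : X.residueField x)) = r • φ (1 : X.residueField x) :=
      map_smul φ.hom r _
    rw [kap_smul, kap_smul, mul_one] at h2
    exact h2
  by_cases h0 : φ (1 : X.residueField x) = (0 : X.residueField x)
  · left
    ext c
    rw [h1 c, h0, mul_zero]
    rfl
  · right
    rw [ConcreteCategory.isIso_iff_bijective]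
    constructor
    · intro c d hcd
      rw [h1 c, h1 d] at hcd
      exact mul_right_cancel₀ h0 hcd
    · intro c
      refine ⟨c * (φ (1 : X.residueField x))⁻¹, ?_⟩
      rw [h1, mul_assoc, inv_mul_cancel₀ h0, mul_one]

lemma endo_of_fullyFaithful {C D : Type*} [Category C] [Category D] [Preadditive C] [Preadditive D]
    (F : C ⥤ D) [F.Additive] [F.Full] [F.Faithful] {A : C}
    (h : ∀ φ : A ⟶ A, φ = 0 ∨ IsIso φ) (ψ : F.obj A ⟶ F.obj A) : ψ = 0 ∨ IsIso ψ := by
  obtain ⟨φ, rfl⟩ := F.map_surjective ψ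
  rcases h φ with h | h
  · left
    rw [h, F.map_zero]
  · right
    infer_instance

lemma endo_of_iso {C : Type*} [Category C] [Preadditive C] {A B : C} (e : A ≅ B)
    (h : ∀ φ : A ⟶ A, φ = 0 ∨ IsIso φ) (ψ : B ⟶ B) : ψ = 0 ∨ IsIso ψ := by
  have h1 : ψ = e.inv ≫ (e.hom ≫ ψ ≫ e.inv) ≫ e.hom := by simp
  rcases h (e.hom ≫ ψ ≫ e.inv) with h | h
  · left
    rw [h1, h, zero_comp, comp_zero]
  · right
    rw [h1]
    infer_instance

/-- B9: every endomorphism of the skyscraper sheaf is zero or an isomorphism -/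
theorem skyD_endo (x : X) (φ : skyD x ⟶ skyD x) : φ = 0 ∨ IsIso φ :=
  endo_of_fullyFaithful (DerivedCategory.singleFunctor X.Modules 0)
    (endo_of_iso (skyIso x).symm (endo_of_fullyFaithful (skyFun x) (kap_endo x))) φ

end M21
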