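import Pool.Agent.H.MP_21b43d_ag.Base
import Pool.Agent.H.MP_21b43d_ag.CA2

/-!
# M21: neighbourhoods of a closed point whose maximal ideal is generated by two elements
-/

open CategoryTheory CategoryTheory.Limits AlgebraicGeometry TopologicalSpace Opposite

noncomputable section

namespace M21

variable {X : Scheme.{0}}

theorem nbh_germ_res {V W : X.Opens} (hV : V ≤ W) (y : X) (hy : y ∈ V) (f : Γ(X, W)) :
    X.presheaf.germ V y hy (resF hV f) = X.presheaf.germ W y (hV hy) f :=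
  X.presheaf.germ_res_apply (homOfLE hV) y hy f

/-- One function vanishing at `x` vanishes near `x` wherever `a'` and `b'` vanish. -/
theorem nbh_one (x : X) (a b : X.presheaf.stalk x)
    (hab : IsLocalRing.maximalIdeal (X.presheaf.stalk x) = Ideal.span {a, b})
    (W : X.Opens) (hxW : x ∈ W) (a' b' : Γ(X, W)) (ha : X.presheaf.germ W x hxW a' = a)
    (hb : X.presheaf.germ W x hxW b' = b) (f : Γ(X, W)) (hf : x ∉ X.basicOpen f) :
    ∃ V : X.Opens, V ≤ W ∧ x ∈ V ∧ ∀ y ∈ V, y ∉ X.basicOpen a' → y ∉ X.basicOpen b' →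
      y ∉ X.basicOpen f := by
  have h1 : X.presheaf.germ W x hxW f ∈ IsLocalRing.maximalIdeal (X.presheaf.stalk x) := by
    rw [IsLocalRing.mem_maximalIdeal, mem_nonunits_iff]
    exact fun h => hf ((X.mem_basicOpen f x hxW).2 h)
  rw [hab, Ideal.mem_span_pair] at h1
  obtain ⟨p, q, hpq⟩ := h1
  obtain ⟨Vp, hVp, hxp, p', rfl⟩ := X.presheaf.exists_le_germ_eq p hxW
  obtain ⟨V1, hV1, hx1, q', rfl⟩ := X.presheaf.exists_le_germ_eq q hxp
  have hV1W : V1 ≤ W := hV1.trans hVp
  obtain ⟨s, hs⟩ : ∃ s : Γ(X, V1), s = resF hV1 p' * resF hV1W a' + q' * resF hV1W b' := ⟨_, rfl⟩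
  have h2 : X.presheaf.germ V1 x hx1 s = X.presheaf.germ W x hxW f := by
    rw [← hpq, hs, map_add, map_mul, map_mul]
    erw [nbh_germ_res, nbh_germ_res, nbh_germ_res]
    rw [ha, hb]
  obtain ⟨V, hxV, i1, i2, h3⟩ := X.presheaf.germ_eq x hx1 hxW s f h2
  refine ⟨V, i2.le, hxV, fun y hy hya hyb hyf => ?_⟩
  have hyW : y ∈ W := i2.le hy
  have hy1 : y ∈ V1 := i1.le hy
  have h4 : X.presheaf.germ V1 y hy1 s = X.presheaf.germ W y hyW f := by
    have e1 := X.presheaf.germ_res_apply i1 y hy s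
    have e2 := X.presheaf.germ_res_apply i2 y hy f
    rw [← e1, ← e2, h3]
  have h5 : X.presheaf.germ W y hyW f ∈ IsLocalRing.maximalIdeal (X.presheaf.stalk y) := by
    rw [← h4, hs, map_add, map_mul, map_mul]
    erw [nbh_germ_res hV1W, nbh_germ_res hV1W]
    refine Ideal.add_mem _ (Ideal.mul_mem_left _ _ ?_) (Ideal.mul_mem_left _ _ ?_)
    · rw [IsLocalRing.mem_maximalIdeal, mem_nonunits_iff]
      exact fun h => hya ((X.mem_basicOpen a' y hyW).2 h)
    · rw [IsLocalRing.mem_maximalIdeal, mem_nonunits_iff]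
      exact fun h => hyb ((X.mem_basicOpen b' y hyW).2 h)
  rw [IsLocalRing.mem_maximalIdeal, mem_nonunits_iff] at h5
  exact h5 ((X.mem_basicOpen f y hyW).1 hyf)

/-- Let `x` be a closed point of a locally noetherian scheme such that the maximal ideal of the
stalk is generated by `a, b`.  Every neighbourhood `U` of `x` contains an affine open `V` with
`x ∈ V` and functions `a', b'` on `V` with germs `a, b` at `x` such that one of `a', b'` is invertible
at every point `y ≠ x` of `V`.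

Proof.  Choose an affine open `W ≤ U` containing `x` and extend the germs `a, b` to `W`
(after shrinking `W` to a basic open).  Let `I` be the ideal of `x` in the noetherian ring
`A = Γ(X, W)` (`IsAffineOpen.primeIdealOf`); it is maximal because `x` is closed, and it is generated
by finitely many elements `f_i`.  The germ of `f_i` at `x` is in the maximal ideal, so it is
`p_i a + q_i b`; extend `p_i, q_i` and shrink `W` to a basic open `V` containing `x` over which
`f_i = p_i a' + q_i b'` for all `i`.  If `y ∈ V` and `a', b'` are not invertible at `y`, then no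
`f_i` is invertible at `y`, so the prime ideal of `y` in `A` contains `I`, so it is equal to `I`
and `y = x`. -/
theorem exists_nbhd [IsLocallyNoetherian X] (x : X) (hx : IsClosed ({x} : Set X))
    (a b : X.presheaf.stalk x)
    (hab : IsLocalRing.maximalIdeal (X.presheaf.stalk x) = Ideal.span {a, b})
    (U : X.Opens) (hxU : x ∈ U) :
    ∃ (V : X.Opens) (_ : V ≤ U) (hxV : x ∈ V) (a' b' : Γ(X, V)), IsAffineOpen V ∧
      X.presheaf.germ V x hxV a' = a ∧ X.presheaf.germ V x hxV b' = b ∧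
      ∀ y ∈ V, y ≠ x → y ∈ X.basicOpen a' ∨ y ∈ X.basicOpen b' := by
  classical
  obtain ⟨U1, hU1, hx1, a1, ha1⟩ := X.presheaf.exists_le_germ_eq a hxU
  obtain ⟨U2, hU2, hx2, b1, hb1⟩ := X.presheaf.exists_le_germ_eq b hx1
  obtain ⟨W, hW, hxW, hWU⟩ := exists_isAffineOpen_mem_and_subset hx2
  have hWU2 : W ≤ U2 := hWU
  have hWU1 : W ≤ U1 := hWU2.trans hU2
  obtain ⟨aW, haW⟩ : ∃ aW : Γ(X, W), aW = resF hWU1 a1 := ⟨_, rfl⟩
  obtain ⟨bW, hbW⟩ : ∃ bW : Γ(X, W), bW = resF hWU2 b1 := ⟨_, rfl⟩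
  have haW' : X.presheaf.germ W x hxW aW = a := by
    rw [haW, nbh_germ_res, ha1]
  have hbW' : X.presheaf.germ W x hxW bW = b := by
    rw [hbW, nbh_germ_res, hb1]
  have hnoeth : IsNoetherianRing Γ(X, W) := IsLocallyNoetherian.component_noetherian ⟨W, hW⟩
  obtain ⟨I, hI⟩ : ∃ I : Ideal Γ(X, W), I = Ideal.comap (X.presheaf.germ W x hxW).hom
    (IsLocalRing.maximalIdeal (X.presheaf.stalk x)) := ⟨_, rfl⟩
  have hmemI : ∀ f : Γ(X, W), f ∈ I ↔ x ∉ X.basicOpen f := by
    intro f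
    rw [hI, Ideal.mem_comap, IsLocalRing.mem_maximalIdeal, mem_nonunits_iff,
      X.mem_basicOpen f x hxW]
  obtain ⟨S, hS⟩ : I.FG := (isNoetherianRing_iff_ideal_fg _).1 hnoeth I
  have hSI : ∀ f ∈ S, x ∉ X.basicOpen f := fun f hf => (hmemI f).1 (by
    rw [← hS]
    exact Ideal.subset_span hf)
  have key : ∀ T : Finset Γ(X, W), (∀ f ∈ T, x ∉ X.basicOpen f) →
      ∃ V : X.Opens, V ≤ W ∧ x ∈ V ∧ ∀ f ∈ T, ∀ y ∈ V, y ∉ X.basicOpen aW → y ∉ X.basicOpen bW →
        y ∉ X.basicOpen f := by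
    intro T
    induction T using Finset.induction_on with
    | empty => exact fun _ => ⟨W, le_rfl, hxW, fun f hf => absurd hf (Finset.notMem_empty f)⟩
    | insert f T _ ih =>
      intro hT
      obtain ⟨V, hVW, hxV, hV⟩ := ih fun g hg => hT g (Finset.mem_insert_of_mem hg)
      obtain ⟨V', hVW', hxV', hV'⟩ := nbh_one x a b hab W hxW aW bW haW' hbW' f
        (hT f (Finset.mem_insert_self f T))
      refine ⟨V ⊓ V', inf_le_left.trans hVW, ⟨hxV, hxV'⟩, fun g hg y hy hya hyb => ?_⟩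
      rcases Finset.mem_insert.1 hg with rfl | hg
      · exact hV' y hy.2 hya hyb
      · exact hV g hg y hy.1 hya hyb
  obtain ⟨V1, hV1W, hxV1, hV1⟩ := key S hSI
  obtain ⟨V, hV, hxV, hVV1⟩ := exists_isAffineOpen_mem_and_subset hxV1
  have hVV1' : V ≤ V1 := hVV1
  have hVW : V ≤ W := hVV1'.trans hV1W
  refine ⟨V, (hVW.trans hWU1).trans hU1, hxV, resF hVW aW, resF hVW bW, hV, ?_, ?_, ?_⟩
  · rw [nbh_germ_res, haW']
  · rw [nbh_germ_res, hbW']
  · intro y hy hyx
    by_contra hcon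
    rw [not_or] at hcon
    have hyW : y ∈ W := hVW hy
    have hya : y ∉ X.basicOpen aW := fun h => hcon.1 (by
      rw [X.mem_basicOpen _ y hy]
      rw [X.mem_basicOpen _ y hyW] at h
      erw [nbh_germ_res]
      exact h)
    have hyb : y ∉ X.basicOpen bW := fun h => hcon.2 (by
      rw [X.mem_basicOpen _ y hy]
      rw [X.mem_basicOpen _ y hyW] at h
      erw [nbh_germ_res]
      exact h)
    have hyS : ∀ f ∈ S, y ∉ X.basicOpen f := fun f hf => hV1 f hf y (hVV1' hy) hya hyb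
    obtain ⟨f, hf1, hf2⟩ := hW.exists_basicOpen_le (V := ⟨{x}ᶜ, hx.isOpen_compl⟩)
      ⟨y, hyx⟩ hyW
    have hfI : f ∈ I := (hmemI f).2 fun h => (hf1 h : x ∈ ({x}ᶜ : Set X)) rfl
    have hIy : I ≤ Ideal.comap (X.presheaf.germ W y hyW).hom
        (IsLocalRing.maximalIdeal (X.presheaf.stalk y)) := by
      rw [← hS, Ideal.span_le]
      intro g hg
      rw [SetLike.mem_coe, Ideal.mem_comap, IsLocalRing.mem_maximalIdeal, mem_nonunits_iff]
      exact fun h => hyS g hg ((X.mem_basicOpen g y hyW).2 h)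
    have h6 := hIy hfI
    rw [Ideal.mem_comap, IsLocalRing.mem_maximalIdeal, mem_nonunits_iff] at h6
    exact h6 ((X.mem_basicOpen f y hyW).1 hf2)

end M21
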