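import Pool.Agent.H.MP_21b43d_ag.S.Val2
import Pool.Agent.H.MP_21b43d_ag.S.Nbhd

/-!
# M21: nonzero maps from a skyscraper sheaf (B10 (ii))
-/

open CategoryTheory CategoryTheory.Limits CategoryTheory.Pretriangulated AlgebraicGeometry
  TopologicalSpace Opposite

noncomputable section

namespace M21

section

variable {D : Type*} [Category D] [HasZeroObject D] [HasShift D ℤ] [Preadditive D]
  [∀ n : ℤ, (shiftFunctor D n).Additive] [Pretriangulated D]

/-- a map out of the first object of a triangle which kills the third morphism factors through the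
first morphism -/
theorem tri_factor (T : Triangle D) (hT : T ∈ distTriang D) {A : D} (u : T.obj₁ ⟶ A)
    (h : T.mor₃ ≫ u⟦(1 : ℤ)⟧' = 0) : ∃ v : T.obj₂ ⟶ A, u = T.mor₁ ≫ v := by
  obtain ⟨g, hg⟩ := Triangle.yoneda_exact₃ T.rotate (rot_of_distTriang _ hT) (u⟦(1 : ℤ)⟧') h
  obtain ⟨g', hg'⟩ := (shiftFunctor D (1 : ℤ)).map_surjective (X := T.obj₂) (Y := A) g
  refine ⟨-g', (shiftFunctor D (1 : ℤ)).map_injective ?_⟩
  have e : T.rotate.mor₃ ≫ g = (-T.mor₁⟦(1 : ℤ)⟧') ≫ g'⟦(1 : ℤ)⟧' := by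
    rw [hg']
    rfl
  rw [hg, e, Functor.map_comp, Functor.map_neg, Preadditive.neg_comp, Preadditive.comp_neg]

end

variable {X : Scheme.{0}} {x : X} {V : X.Opens} {a b : Γ(X, V)}

/-- multiplication by `b` on the sequence `P_V ⟶ P_V ⟶ P_V / a` -/
def s1b (a b : Γ(X, V)) : S1 a ⟶ S1 a where
  τ₁ := mV b
  τ₂ := mV b
  τ₃ := bQ a b
  comm₁₂ := mV_comm b a
  comm₂₃ := (pQ_bQ a b).symm

/-- the inclusion on `P_V / a` -/
def iQ {V' : X.Opens} (h : V' ≤ V) (a : Γ(X, V)) : QV (resF h a) ⟶ QV a :=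
  qDesc (resF h a) (iV h ≫ pQ a) (by
    rw [← Category.assoc, ← iV_mV, Category.assoc, mV_pQ, comp_zero])

theorem pQ_iQ {V' : X.Opens} (h : V' ≤ V) (a : Γ(X, V)) :
    pQ (resF h a) ≫ iQ h a = iV h ≫ pQ a := pQ_qDesc _ _ _

theorem iQ_bQ {V' : X.Opens} (h : V' ≤ V) (a b : Γ(X, V)) :
    iQ h a ≫ bQ a b = bQ (resF h a) (resF h b) ≫ iQ h a := by
  rw [← cancel_epi (pQ (resF h a)), ← Category.assoc, pQ_iQ, Category.assoc, pQ_bQ,
    ← Category.assoc, ← Category.assoc, pQ_bQ, iV_mV, Category.assoc, Category.assoc, pQ_iQ]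

/-- the inclusion on the sequence `P_V ⟶ P_V ⟶ P_V / a` -/
def s1i {V' : X.Opens} (h : V' ≤ V) (a : Γ(X, V)) : S1 (resF h a) ⟶ S1 a where
  τ₁ := iV h
  τ₂ := iV h
  τ₃ := iQ h a
  comm₁₂ := iV_mV h a
  comm₂₃ := (pQ_iQ h a).symm

/-- the connecting map -/
def Kos.δ (h : Kos x V a b) : sgV (QV a) ⟶ (sgV (PV V))⟦(1 : ℤ)⟧ := h.S1.singleδ

theorem Kos.δ_b (h : Kos x V a b) :
    h.δ ≫ (sgmV (mV b))⟦(1 : ℤ)⟧' = sgmV (bQ a b) ≫ h.δ :=
  (ShortComplex.ShortExact.singleTriangle.map h.S1 h.S1 (s1b a b)).comm₃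

theorem Kos.δ_i (h : Kos x V a b) {V' : X.Opens} (hV : V' ≤ V) (hx : x ∈ V') :
    (h.res hV hx).δ ≫ (sgmV (iV hV))⟦(1 : ℤ)⟧' = sgmV (iQ hV a) ≫ h.δ :=
  (ShortComplex.ShortExact.singleTriangle.map (h.res hV hx).S1 h.S1 (s1i hV a)).comm₃

/-- a map killed by `a` factors through `P_V / a` -/
theorem Kos.fac_Q (h : Kos x V a b) {A : DMod X} (φ : sgV (PV V) ⟶ A)
    (h0 : sgmV (mV a) ≫ φ = 0) : ∃ u : sgV (QV a) ⟶ A, φ = sgmV (pQ a) ≫ u :=
  Triangle.yoneda_exact₂ h.S1.singleTriangle h.S1.singleTriangle_distinguished φ h0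

/-- a map out of `P_V / a` killed by the projection factors through the connecting map -/
theorem Kos.fac_δ (h : Kos x V a b) {A : DMod X} (u : sgV (QV a) ⟶ A)
    (h0 : sgmV (pQ a) ≫ u = 0) : ∃ g : (sgV (PV V))⟦(1 : ℤ)⟧ ⟶ A, u = h.δ ≫ g :=
  Triangle.yoneda_exact₃ h.S1.singleTriangle h.S1.singleTriangle_distinguished u h0

/-- a map out of `P_V` whose shift is killed by the connecting map is a multiple of `a` -/
theorem Kos.fac_a (h : Kos x V a b) {A : DMod X} (φ : sgV (PV V) ⟶ A)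
    (h0 : h.δ ≫ φ⟦(1 : ℤ)⟧' = 0) : ∃ ψ : sgV (PV V) ⟶ A, φ = sgmV (mV a) ≫ ψ :=
  tri_factor h.S1.singleTriangle h.S1.singleTriangle_distinguished φ h0

/-- if there are no maps from the skyscraper sheaf to `A[1]`, then `b` is surjective on the maps
from `P_V / a` to `A` -/
theorem Kos.fac_b (h : Kos x V a b) {A : DMod X}
    (hA : ∀ f : sgV ((skyFun x).obj (kap x)) ⟶ A⟦(1 : ℤ)⟧, f = 0) (u : sgV (QV a) ⟶ A) :
    ∃ u' : sgV (QV a) ⟶ A, u = sgmV (bQ a b) ≫ u' :=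
  tri_factor h.S2_exact.singleTriangle h.S2_exact.singleTriangle_distinguished u (hA _)

/-- the maps killed by `a` are multiples of `b` -/
theorem Kos.stepB (h : Kos x V a b) {A : DMod X}
    (hA : ∀ f : sgV ((skyFun x).obj (kap x)) ⟶ A⟦(1 : ℤ)⟧, f = 0)
    (y : (stalkMod X x).obj (hh 0 A)) (hy : X.presheaf.germ V x h.mem a • y = 0) :
    ∃ y' : (stalkMod X x).obj (hh 0 A), X.presheaf.germ V x h.mem a • y' = 0 ∧
      y = X.presheaf.germ V x h.mem b • y' := by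
  obtain ⟨V1, hV1, hx1, ψ, rfl⟩ := exists_vl h.mem A y
  have h1 : vl hx1 (sgmV (mV (resF hV1 a)) ≫ ψ) = 0 := by
    rw [vl_mV, germ_resF]
    exact hy
  obtain ⟨V2, hV2, hx2, h2⟩ := exists_res_eq_zero hx1 _ h1
  have hk := h.res (hV2.trans hV1) hx2
  have e1 : sgmV (mV (resF (hV2.trans hV1) a)) ≫ sgmV (iV hV2) ≫ ψ = 0 := by
    rw [← Category.assoc, ← Functor.map_comp, ← resF_resF hV1 hV2, ← iV_mV, Functor.map_comp,
      Category.assoc]
    exact h2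
  obtain ⟨u, hu⟩ := hk.fac_Q (sgmV (iV hV2) ≫ ψ) e1
  obtain ⟨u', rfl⟩ := hk.fac_b hA u
  have e2 : sgmV (iV hV2) ≫ ψ =
      sgmV (mV (resF (hV2.trans hV1) b)) ≫ sgmV (pQ (resF (hV2.trans hV1) a)) ≫ u' := by
    rw [hu, ← Category.assoc, ← Functor.map_comp, pQ_bQ, Functor.map_comp, Category.assoc]
  refine ⟨vl hx2 (sgmV (pQ (resF (hV2.trans hV1) a)) ≫ u'), ?_, ?_⟩
  · rw [← germ_resF (hV2.trans hV1) x hx2, ← vl_mV, ← Category.assoc, ← Functor.map_comp, mV_pQ,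
      Functor.map_zero, zero_comp]
    have h3 := vl_add hx2 (0 : sgV (PV V2) ⟶ A) 0
    rw [add_zero] at h3
    exact left_eq_add.1 h3
  · rw [← vl_iV hV2 hx2 ψ, e2, vl_mV, germ_resF]

/-- `a` is injective on the stalk -/
theorem Kos.stepB' (h : Kos x V a b) {A : DMod X} [IsNoetherianRing (X.presheaf.stalk x)]
    (hA : ∀ f : sgV ((skyFun x).obj (kap x)) ⟶ A⟦(1 : ℤ)⟧, f = 0)
    [Module.Finite (X.presheaf.stalk x) ((stalkMod X x).obj (hh 0 A))]
    (y : (stalkMod X x).obj (hh 0 A)) (hy : X.presheaf.germ V x h.mem a • y = 0) : y = 0 := by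
  let K : Submodule (X.presheaf.stalk x) ((stalkMod X x).obj (hh 0 A)) :=
    LinearMap.ker (LinearMap.lsmul (X.presheaf.stalk x) ((stalkMod X x).obj (hh 0 A))
      (X.presheaf.germ V x h.mem a))
  have hK : K = ⊥ := by
    apply Submodule.eq_bot_of_le_smul_of_le_jacobson_bot
      (Ideal.span {X.presheaf.germ V x h.mem b}) K (IsNoetherian.noetherian K)
    · intro z hz
      obtain ⟨z', hz', rfl⟩ := h.stepB hA z hz
      exact Submodule.smul_mem_smul (Ideal.subset_span rfl) hz'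
    · rw [IsLocalRing.jacobson_eq_maximalIdeal _ bot_ne_top, Ideal.span_le]
      rintro _ rfl
      exact h.par.mem₂
  have h1 : y ∈ K := hy
  rw [hK] at h1
  exact h1

/-- every germ is in `(a, b)` times the stalk -/
theorem Kos.stepC (h : Kos x V a b) {A : DMod X}
    (hA : ∀ f : sgV ((skyFun x).obj (kap x)) ⟶ (A⟦(1 : ℤ)⟧)⟦(1 : ℤ)⟧, f = 0)
    (hreg : ∀ y : (stalkMod X x).obj (hh 0 (A⟦(1 : ℤ)⟧)),
      X.presheaf.germ V x h.mem a • y = 0 → y = 0)
    (z : (stalkMod X x).obj (hh 0 A)) :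
    ∃ z₁ z₂ : (stalkMod X x).obj (hh 0 A),
      z = X.presheaf.germ V x h.mem a • z₁ + X.presheaf.germ V x h.mem b • z₂ := by
  obtain ⟨V1, hV1, hx1, φ, rfl⟩ := exists_vl h.mem A z
  have hk := h.res hV1 hx1
  obtain ⟨u', hu'⟩ := hk.fac_b hA (hk.δ ≫ φ⟦(1 : ℤ)⟧')
  have h1 : vl hx1 (sgmV (pQ (resF hV1 a)) ≫ u') = 0 := by
    apply hreg
    rw [← germ_resF hV1 x hx1, ← vl_mV, ← Category.assoc, ← Functor.map_comp, mV_pQ,
      Functor.map_zero, zero_comp]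
    have h3 := vl_add hx1 (0 : sgV (PV V1) ⟶ A⟦(1 : ℤ)⟧) 0
    rw [add_zero] at h3
    exact left_eq_add.1 h3
  obtain ⟨V2, hV2, hx2, h2⟩ := exists_res_eq_zero hx1 _ h1
  have hk2 := hk.res hV2 hx2
  have e1 : sgmV (pQ (resF hV2 (resF hV1 a))) ≫ sgmV (iQ hV2 (resF hV1 a)) ≫ u' = 0 := by
    rw [← Category.assoc, ← Functor.map_comp, pQ_iQ, Functor.map_comp, Category.assoc]
    exact h2
  obtain ⟨g, hg⟩ := hk2.fac_δ _ e1
  obtain ⟨φ', rfl⟩ := (shiftFunctor (DMod X) (1 : ℤ)).map_surjective g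
  have e2 : hk2.δ ≫ (sgmV (iV hV2) ≫ φ)⟦(1 : ℤ)⟧' =
      hk2.δ ≫ (sgmV (mV (resF hV2 (resF hV1 b))) ≫ φ')⟦(1 : ℤ)⟧' := by
    rw [Functor.map_comp, Functor.map_comp, ← Category.assoc, hk.δ_i hV2 hx2, Category.assoc, hu',
      ← Category.assoc, ← Functor.map_comp, iQ_bQ, Functor.map_comp, Category.assoc, hg,
      ← Category.assoc, ← Category.assoc, hk2.δ_b]
  have e3 : hk2.δ ≫ (sgmV (iV hV2) ≫ φ - sgmV (mV (resF hV2 (resF hV1 b))) ≫ φ')⟦(1 : ℤ)⟧' = 0 := by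
    rw [Functor.map_sub, Preadditive.comp_sub, e2, sub_self]
  obtain ⟨ψ, hψ⟩ := hk2.fac_a _ e3
  refine ⟨vl hx2 ψ, vl hx2 φ', ?_⟩
  rw [← vl_iV hV2 hx2 φ, sub_eq_iff_eq_add.1 hψ, vl_add, vl_mV, vl_mV, germ_resF, germ_resF,
    germ_resF, germ_resF]


theorem zero_hom_of_iso {C : Type*} [Category C] [Preadditive C] {A A' B B' : C} (e : A ≅ A')
    (e' : B ≅ B') (h : ∀ f : A ⟶ B, f = 0) (f : A' ⟶ B') : f = 0 := by
  rw [← cancel_epi e.hom, ← cancel_mono e'.inv, h ((e.hom ≫ f) ≫ e'.inv)]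
  simp

/-- **B10 (ii)**: if `H^t(A)` is not zero at the closed point `x`, then there is a nonzero map from
the skyscraper sheaf to `A[t + 2]`. -/
theorem exists_from_skyD [IsIntegral X] [IsLocallyNoetherian X] (x : X)
    (hx : IsClosed ({x} : Set X)) {a b : X.presheaf.stalk x}
    (hab : IsPar2 (X.presheaf.stalk x) a b) (A : DMod X) (hA : dbCoh X A) (t : ℤ)
    (ht : ¬ ZeroAt (hh t A) x) : ∃ f : skyD x ⟶ A⟦t + 2⟧, f ≠ 0 := by
  by_contra hcon
  push Not at hcon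
  obtain ⟨V, -, hxV, a', b', -, rfl, rfl, hV⟩ := exists_nbhd x hx a b hab.max ⊤ trivial
  have hk : Kos x V a' b' :=
    { mem := hxV
      closed := hx
      par := hab
      reg := by
        intro y hy r hr
        rcases mul_eq_zero.1 hr with h0 | h0
        · exfalso
          have h1 : a' = 0 := germ_injective_of_isIntegral X y hy (h0.trans (map_zero _).symm)
          have h2 := hab.reg₁ 1
          rw [h1, map_zero, zero_mul] at h2
          exact one_ne_zero (h2 rfl)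
        · exact h0
      unit := by
        intro y hy hyx
        rcases hV y hy hyx with h | h
        · exact Or.inl ((X.mem_basicOpen a' y hy).1 h)
        · exact Or.inr ((X.mem_basicOpen b' y hy).1 h) }
  have hA2 : ∀ f : sgV ((skyFun x).obj (kap x)) ⟶ ((A⟦t⟧)⟦(1 : ℤ)⟧)⟦(1 : ℤ)⟧, f = 0 := by
    have e1 : skyD x ≅ sgV ((skyFun x).obj (kap x)) :=
      (DerivedCategory.singleFunctor X.Modules 0).mapIso (skyIso x)
    have e2 : A⟦t + 2⟧ ≅ ((A⟦t⟧)⟦(1 : ℤ)⟧)⟦(1 : ℤ)⟧ :=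
      (shiftFunctorAdd' (DMod X) (t + 1) 1 (t + 2) (by lia)).app A ≪≫
        (shiftFunctor (DMod X) (1 : ℤ)).mapIso
          ((shiftFunctorAdd' (DMod X) t 1 (t + 1) rfl).app A)
    exact zero_hom_of_iso e1 e2 hcon
  have hfin0 : Module.Finite (X.presheaf.stalk x) ((stalkMod X x).obj (hh 0 (A⟦t⟧))) := by
    have := (hA.2 t).finite_stalk x
    exact Module.Finite.equiv
      ((stalkMod X x).mapIso (hhShift A t 0 t (by lia))).toLinearEquiv.symm
  have hfin1 : Module.Finite (X.presheaf.stalk x)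
      ((stalkMod X x).obj (hh 0 ((A⟦t⟧)⟦(1 : ℤ)⟧))) := by
    have := (hA.2 (t + 1)).finite_stalk x
    exact Module.Finite.equiv
      ((stalkMod X x).mapIso (hhShift (A⟦t⟧) 1 0 1 (by lia) ≪≫
        hhShift A t 1 (t + 1) rfl)).toLinearEquiv.symm
  have hz : (⊤ : Submodule (X.presheaf.stalk x) ((stalkMod X x).obj (hh 0 (A⟦t⟧)))) = ⊥ := by
    apply Submodule.eq_bot_of_le_smul_of_le_jacobson_bot
      (IsLocalRing.maximalIdeal (X.presheaf.stalk x)) _ Module.Finite.fg_top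
    · intro z _
      obtain ⟨z₁, z₂, rfl⟩ := hk.stepC hA2 (hk.stepB' hA2) z
      exact Submodule.add_mem _ (Submodule.smul_mem_smul hab.mem₁ trivial)
        (Submodule.smul_mem_smul hab.mem₂ trivial)
    · rw [IsLocalRing.jacobson_eq_maximalIdeal _ bot_ne_top]
  apply ht
  rw [← zeroAt_iso (hhShift A t 0 t (by lia)), zeroAt_iff, ModuleCat.isZero_iff_subsingleton]
  exact subsingleton_of_forall_eq 0 (fun z => by
    have : z ∈ (⊤ : Submodule (X.presheaf.stalk x) ((stalkMod X x).obj (hh 0 (A⟦t⟧)))) := trivial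
    rw [hz] at this
    exact this)

end M21
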