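import Pool.Agent.H.MP_21b43d_ag.S.DStalk
import Pool.Agent.H.MP_21b43d_ag.B.Coh2

/-!
# M21: stalks of coherent modules are finitely generated, maps to the residue field
-/

open CategoryTheory CategoryTheory.Limits CategoryTheory.Pretriangulated AlgebraicGeometry
  TopologicalSpace Opposite

noncomputable section

namespace M21

variable {X : Scheme.{0}}

/-- the germs of the sections over an affine neighbourhood generate the stalk -/
theorem QC.exists_germ {M : X.Modules} (h : QC M) {x : X} {U : X.Opens} (hU : IsAffineOpen U)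
    (hx : x ∈ U) (m : (stalkMod X x).obj M) :
    ∃ (r : X.presheaf.stalk x) (t : Γ(M, U)), m = r • gm M x U hx t := by
  obtain ⟨V, hVU, hxV, s, rfl⟩ := exists_le_gm M x m hx
  obtain ⟨f, hfV, hxf⟩ := hU.exists_basicOpen_le ⟨x, hxV⟩ hx
  obtain ⟨n, t, ht⟩ := h.ext U hU f (res M hfV s)
  have h1 : gm M x (X.basicOpen f) hxf (res M (X.basicOpen_le f) t) = gm M x U hx t :=
    gm_res M x (X.basicOpen_le f) hxf t
  have h2 : gm M x (X.basicOpen f) hxf (res M hfV s) = gm M x V hxV s :=
    gm_res M x hfV hxf s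
  have hu : IsUnit (X.presheaf.germ (X.basicOpen f) x hxf (resF (X.basicOpen_le f) f ^ n)) := by
    rw [map_pow]
    refine IsUnit.pow n ?_
    have h3 : X.presheaf.germ (X.basicOpen f) x hxf (resF (X.basicOpen_le f) f) =
        X.presheaf.germ U x hx f :=
      TopCat.Presheaf.germ_res_apply X.presheaf (homOfLE (X.basicOpen_le f)) x hxf f
    rw [h3]
    exact (X.mem_basicOpen f x hx).1 hxf
  rw [ht, gm_smul, h2] at h1
  obtain ⟨u, hu⟩ := hu
  refine ⟨(↑u⁻¹ : X.presheaf.stalk x), t, ?_⟩
  rw [← h1, ← hu, smul_smul, Units.inv_mul, one_smul]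

/-- stalks of coherent modules are finitely generated -/
theorem IsCoh.finite_stalk {M : X.Modules} (h : IsCoh M) (x : X) :
    Module.Finite (X.presheaf.stalk x) ((stalkMod X x).obj M) := by
  classical
  obtain ⟨U, hU, hx, -⟩ := exists_isAffineOpen_mem_and_subset (X := X) (x := x) (U := ⊤) trivial
  have := h.finite U hU
  obtain ⟨S, hS⟩ := this.fg_top
  refine ⟨⟨S.image (gm M x U hx), ?_⟩⟩
  rw [eq_top_iff]
  rintro m -
  obtain ⟨r, t, rfl⟩ := h.qc.exists_germ hU hx m
  refine Submodule.smul_mem _ _ ?_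
  have ht : t ∈ Submodule.span Γ(X, U) (S : Set Γ(M, U)) := by rw [hS]; trivial
  induction ht using Submodule.span_induction with
  | mem y hy => exact Submodule.subset_span (by simpa using ⟨y, hy, rfl⟩)
  | zero => rw [gm_zero]; exact Submodule.zero_mem _
  | add y z _ _ hy hz => rw [gm_add]; exact Submodule.add_mem _ hy hz
  | smul a y _ hy => rw [gm_smul]; exact Submodule.smul_mem _ _ hy

/-- the map from the quotient by the maximal ideal to the residue field -/
def quotKap (x : X) : (X.presheaf.stalk x ⧸ IsLocalRing.maximalIdeal (X.presheaf.stalk x))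
    →ₗ[X.presheaf.stalk x] X.residueField x where
  toFun := id
  map_add' _ _ := rfl
  map_smul' r c := by
    obtain ⟨c, rfl⟩ := Ideal.Quotient.mk_surjective c
    rfl

/-- a nonzero finitely generated module has a nonzero map to the residue field -/
theorem exists_to_kap (x : X) (M : ModuleCat.{0} (X.presheaf.stalk x))
    [Module.Finite (X.presheaf.stalk x) M] (h0 : ¬ IsZero M) : ∃ h : M ⟶ kap x, h ≠ 0 := by
  have : Nontrivial M := by
    by_contra hn
    rw [not_nontrivial_iff_subsingleton] at hn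
    exact h0 (ModuleCat.isZero_of_subsingleton M)
  obtain ⟨N, hN, -⟩ := (eq_top_or_exists_le_coatom
    (⊥ : Submodule (X.presheaf.stalk x) M)).resolve_left bot_ne_top
  have hs : IsSimpleModule (X.presheaf.stalk x) (M ⧸ N) := isSimpleModule_iff_isCoatom.2 hN
  obtain ⟨I, hI, ⟨e⟩⟩ := isSimpleModule_iff_quot_maximal.1 hs
  obtain rfl := IsLocalRing.eq_maximalIdeal hI
  refine ⟨ModuleCat.ofHom ((quotKap x).comp (e.toLinearMap.comp N.mkQ)), fun h => ?_⟩
  have h1 : ∀ m : M, N.mkQ m = 0 := fun m => by
    have h2 := LinearMap.congr_fun (congrArg ModuleCat.Hom.hom h) m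
    exact e.injective (h2.trans e.map_zero.symm)
  exact hN.1 (eq_top_iff.2 fun m _ => (Submodule.Quotient.mk_eq_zero N).1 (h1 m))

end M21
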