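import Pool.Agent.H.MP_21b43d_ag.S.CohStalk
import Pool.Agent.H.MP_21b43d_ag.B.Supp

/-!
# M21: exactness can be checked on stalks
-/

open CategoryTheory CategoryTheory.Limits CategoryTheory.Pretriangulated AlgebraicGeometry
  TopologicalSpace Opposite

noncomputable section

namespace M21

variable {X : Scheme.{0}}

theorem exact_of_stalks (S : ShortComplex X.Modules)
    (h : ∀ y : X, (S.map (stalkMod X y)).Exact) : S.Exact := by
  rw [ShortComplex.exact_iff_isZero_homology]
  apply isZero_of_zeroAt
  intro y
  rw [zeroAt_iff]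
  exact ((ShortComplex.exact_iff_isZero_homology _).1 (h y)).of_iso
    (S.mapHomologyIso (stalkMod X y)).symm

/-- exactness at a stalk, by elements -/
theorem stalk_exact (S : ShortComplex X.Modules) (hS : S.Exact) (y : X)
    (t : (stalkMod X y).obj S.X₂) (ht : (stalkMod X y).map S.g t = 0) :
    ∃ s : (stalkMod X y).obj S.X₁, (stalkMod X y).map S.f s = t :=
  (ShortComplex.moduleCat_exact_iff _).1 (hS.map (stalkMod X y)) t ht

theorem exact_of_stalks' (S : ShortComplex X.Modules)
    (h : ∀ (y : X) (t : (stalkMod X y).obj S.X₂), (stalkMod X y).map S.g t = 0 →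
      ∃ s : (stalkMod X y).obj S.X₁, (stalkMod X y).map S.f s = t) : S.Exact :=
  exact_of_stalks S fun y => (ShortComplex.moduleCat_exact_iff _).2 (h y)

theorem mono_of_stalks {M N : X.Modules} (f : M ⟶ N)
    (h : ∀ (y : X) (t : (stalkMod X y).obj M), (stalkMod X y).map f t = 0 → t = 0) : Mono f := by
  apply Preadditive.mono_of_isZero_kernel
  apply isZero_of_zeroAt
  intro y
  rw [zeroAt_iff, ModuleCat.isZero_iff_subsingleton]
  refine subsingleton_of_forall_eq 0 (fun t => ?_)
  have hm : Mono ((stalkMod X y).map (kernel.ι f)) := inferInstance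
  rw [ModuleCat.mono_iff_injective] at hm
  apply hm
  rw [map_zero]
  apply h
  rw [← ConcreteCategory.comp_apply, ← Functor.map_comp, kernel.condition, Functor.map_zero]
  rfl

theorem epi_of_stalks {M N : X.Modules} (f : M ⟶ N)
    (h : ∀ (y : X) (t : (stalkMod X y).obj N), ∃ s, (stalkMod X y).map f s = t) : Epi f := by
  apply Preadditive.epi_of_isZero_cokernel
  apply isZero_of_zeroAt
  intro y
  rw [zeroAt_iff, ModuleCat.isZero_iff_subsingleton]
  refine subsingleton_of_forall_eq 0 (fun t => ?_)
  have hm : Epi ((stalkMod X y).map (cokernel.π f)) := inferInstance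
  rw [ModuleCat.epi_iff_surjective] at hm
  obtain ⟨t, rfl⟩ := hm t
  obtain ⟨s, rfl⟩ := h y t
  rw [← ConcreteCategory.comp_apply, ← Functor.map_comp, cokernel.condition, Functor.map_zero]
  rfl

theorem stalk_surj_of_epi {M N : X.Modules} (f : M ⟶ N) [Epi f] (y : X)
    (t : (stalkMod X y).obj N) : ∃ s, (stalkMod X y).map f s = t := by
  have hm : Epi ((stalkMod X y).map f) := inferInstance
  rw [ModuleCat.epi_iff_surjective] at hm
  exact hm t

end M21
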