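import Pool.Agent.H.MP_21b43d_ag.S.Sky
import Pool.Agent.H.MP_21b43d_ag.Base

/-!
# M21: the stalk functor and the skyscraper functor are exact; stalks detect isomorphisms and
zero objects
-/

open CategoryTheory CategoryTheory.Limits AlgebraicGeometry TopologicalSpace Opposite

noncomputable section

namespace M21

variable {X : Scheme.{0}}

instance (x : X) : (stalkMod X x).IsLeftAdjoint := (stalkSkyAdj x).isLeftAdjoint

instance (x : X) : (skyFun x).IsRightAdjoint := (stalkSkyAdj x).isRightAdjoint

instance (x : X) : (skyFun x).Additive := (stalkSkyAdj x).right_adjoint_additive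

lemma gm_res' (M : X.Modules) (x : X) {U V : X.Opens} (h : V ≤ U) (hx : x ∈ V) (m : Γ(M, U)) :
    gm M x V hx (res M h m) = gm M x U (h hx) m := gm_res M x h hx m

lemma gm_eq_zero_iff (M : X.Modules) (x : X) (U : X.Opens) (hx : x ∈ U) (m : Γ(M, U)) :
    gm M x U hx m = 0 ↔ ∃ (W : X.Opens) (h : W ≤ U), x ∈ W ∧ res M h m = 0 := by
  constructor
  · intro h
    rw [← gm_zero M x U hx] at h
    obtain ⟨W, hW, h1, h2, e⟩ := gm_eq M x hx hx m 0 h
    exact ⟨W, h1, hW, e.trans (map_zero _)⟩
  · rintro ⟨W, h1, hW, e⟩
    rw [← gm_res' M x h1 hW, e]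
    exact gm_zero M x W hW

instance stalkMod_preservesMono (x : X) : (stalkMod X x).PreservesMonomorphisms where
  preserves {M N} f hf := by
    rw [ModuleCat.mono_iff_injective, injective_iff_map_eq_zero]
    intro m hm
    obtain ⟨U, hxU, m, rfl⟩ := exists_gm M x m
    rw [map_gm, gm_eq_zero_iff] at hm
    obtain ⟨W, h1, hW, e⟩ := hm
    rw [gm_eq_zero_iff]
    refine ⟨W, h1, hW, injective_of_mono f W ?_⟩
    rw [app_res, e, app_zero]

lemma stalkMod_exact (x : X) : PreservesFiniteLimits (stalkMod X x) ∧
    PreservesFiniteColimits (stalkMod X x) := by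
  refine ((Functor.exact_tfae (stalkMod X x)).out 0 3).1 ?_
  intro S hS
  have h1 := ((Functor.preservesFiniteColimits_iff_forall_exact_map_and_epi (stalkMod X x)).1
    inferInstance) S hS
  have := hS.mono_f
  exact { exact := h1.1, mono_f := inferInstanceAs (Mono ((stalkMod X x).map S.f)), epi_g := h1.2 }

instance (x : X) : PreservesFiniteLimits (stalkMod X x) := (stalkMod_exact x).1

instance skyFun_preservesEpi (x : X) : (skyFun x).PreservesEpimorphisms where
  preserves {N N'} f hf := by
    rw [ModuleCat.epi_iff_surjective] at hf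
    apply epi_of_locSurj
    intro U s y hy
    refine ⟨U, le_rfl, hy, ?_⟩
    choose g hg using hf
    refine ⟨(skySec x N U).symm (fun h => g (skySec x N' U s h)), ?_⟩
    rw [res_self]
    funext h
    exact (skyFun_map_app f U _ h.down).trans (hg _)

lemma skyFun_exact (x : X) : PreservesFiniteLimits (skyFun (X := X) x) ∧
    PreservesFiniteColimits (skyFun (X := X) x) := by
  refine ((Functor.exact_tfae (skyFun (X := X) x)).out 0 3).1 ?_
  intro S hS
  have h0 : PreservesFiniteLimits (skyFun (X := X) x) := inferInstance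
  have h1 := (Functor.preservesFiniteLimits_iff_forall_exact_map_and_mono (skyFun (X := X) x)).1
    h0 S hS
  have := hS.epi_g
  exact { exact := h1.1, mono_f := h1.2, epi_g := inferInstanceAs (Epi ((skyFun x).map S.g)) }

instance (x : X) : PreservesFiniteColimits (skyFun (X := X) x) := (skyFun_exact x).2

/-- the stalk of `M` at `x` is zero -/
lemma zeroAt_iff (M : X.Modules) (x : X) : ZeroAt M x ↔ IsZero ((stalkMod X x).obj M) := by
  rw [ModuleCat.isZero_iff_subsingleton]
  constructor
  · intro h
    refine subsingleton_of_forall_eq 0 (fun m => ?_)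
    obtain ⟨U, hxU, m, rfl⟩ := exists_gm M x m
    rw [gm_eq_zero_iff]
    exact h U hxU m
  · intro h U hxU m
    exact (gm_eq_zero_iff M x U hxU m).1 (Subsingleton.elim _ _)

end M21
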