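import Pool.Agent.H.MP_21b43d_ag.S.CohStalk

/-!
# M21: the extension by zero of the structure sheaf of an open set, defined by its universal property
-/

open CategoryTheory CategoryTheory.Limits CategoryTheory.Pretriangulated AlgebraicGeometry
  TopologicalSpace Opposite

noncomputable section

namespace M21

variable {X : Scheme.{0}}

/-- the module `P_V` with `Hom(P_V, M) = M(V)` -/
def PV (V : X.Opens) : X.Modules :=
  (PresheafOfModules.sheafification (𝟙 X.ringCatSheaf.obj)).obj
    ((PresheafOfModules.free X.ringCatSheaf.obj).obj (yoneda.obj V))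

/-- the universal property of `P_V` -/
def pvEquiv (V : X.Opens) (M : X.Modules) : (PV V ⟶ M) ≃ Γ(M, V) :=
  ((PresheafOfModules.sheafificationAdjunction (𝟙 X.ringCatSheaf.obj)).homEquiv _ M).trans
    PresheafOfModules.freeYonedaEquiv

theorem pvEquiv_comp (V : X.Opens) {M N : X.Modules} (φ : PV V ⟶ M) (f : M ⟶ N) :
    pvEquiv V N (φ ≫ f) = f.app V (pvEquiv V M φ) :=
  congrArg PresheafOfModules.freeYonedaEquiv
    ((PresheafOfModules.sheafificationAdjunction (𝟙 X.ringCatSheaf.obj)).homEquiv_naturality_right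
      φ f)

/-- the universal section of `P_V` -/
def eV (V : X.Opens) : Γ(PV V, V) := pvEquiv V (PV V) (𝟙 _)

theorem pvEquiv_apply (V : X.Opens) {M : X.Modules} (φ : PV V ⟶ M) :
    pvEquiv V M φ = φ.app V (eV V) := by
  rw [eV, ← pvEquiv_comp, Category.id_comp]

/-- the map given by a section -/
def pvHom {V : X.Opens} {M : X.Modules} (s : Γ(M, V)) : PV V ⟶ M := (pvEquiv V M).symm s

theorem pvHom_app {V : X.Opens} {M : X.Modules} (s : Γ(M, V)) : (pvHom s).app V (eV V) = s := by
  rw [← pvEquiv_apply]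
  exact (pvEquiv V M).apply_symm_apply s

theorem pv_ext {V : X.Opens} {M : X.Modules} {φ ψ : PV V ⟶ M}
    (h : φ.app V (eV V) = ψ.app V (eV V)) : φ = ψ := by
  rw [← pvEquiv_apply, ← pvEquiv_apply] at h
  exact (pvEquiv V M).injective h

theorem pvHom_comp {V : X.Opens} {M N : X.Modules} (s : Γ(M, V)) (f : M ⟶ N) :
    pvHom s ≫ f = pvHom (f.app V s) := by
  apply pv_ext
  rw [comp_app_apply, pvHom_app, pvHom_app]

/-- the inclusion `P_V' ⟶ P_V` -/
def iV {V V' : X.Opens} (h : V' ≤ V) : PV V' ⟶ PV V := pvHom (res _ h (eV V))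

/-- multiplication by a function -/
def mV {V : X.Opens} (a : Γ(X, V)) : PV V ⟶ PV V := pvHom (a • eV V)

theorem iV_app {V V' : X.Opens} (h : V' ≤ V) : (iV h).app V' (eV V') = res _ h (eV V) :=
  pvHom_app _

theorem mV_app {V : X.Opens} (a : Γ(X, V)) : (mV a).app V (eV V) = a • eV V := pvHom_app _

theorem iV_pvHom {V V' : X.Opens} (h : V' ≤ V) {M : X.Modules} (s : Γ(M, V)) :
    iV h ≫ pvHom s = pvHom (res _ h s) := by
  apply pv_ext
  rw [comp_app_apply, iV_app, pvHom_app, app_res, pvHom_app]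

theorem mV_pvHom {V : X.Opens} {M : X.Modules} (a : Γ(X, V)) (s : Γ(M, V)) :
    mV a ≫ pvHom s = pvHom (a • s) := by
  apply pv_ext
  rw [comp_app_apply, mV_app, pvHom_app, Scheme.Modules.Hom.app_smul, pvHom_app]

theorem iV_mV {V V' : X.Opens} (h : V' ≤ V) (a : Γ(X, V)) :
    iV h ≫ mV a = mV (resF h a) ≫ iV h := by
  rw [mV, iV_pvHom, iV, mV_pvHom, res_smul]

theorem mV_comm {V : X.Opens} (a b : Γ(X, V)) : mV a ≫ mV b = mV b ≫ mV a := by
  change mV a ≫ pvHom (b • eV V) = mV b ≫ pvHom (a • eV V)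
  rw [mV_pvHom, mV_pvHom, smul_smul, smul_smul, mul_comm]

/-- the germ of the universal section generates the stalk -/
theorem pv_gen {V : X.Opens} {y : X} (hy : y ∈ V) (t : (stalkMod X y).obj (PV V)) :
    ∃ r : X.presheaf.stalk y, t = r • gm (PV V) y V hy (eV V) := by
  let L : Submodule (X.presheaf.stalk y) ((stalkMod X y).obj (PV V)) :=
    Submodule.span _ {gm (PV V) y V hy (eV V)}
  let q : (stalkMod X y).obj (PV V) ⟶ ModuleCat.of _ (((stalkMod X y).obj (PV V)) ⧸ L) :=
    ModuleCat.ofHom L.mkQ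
  have h1 : (toSky q : PV V ⟶ skyObj y _) = 0 := by
    apply pv_ext
    apply (skySec y _ V).injective
    funext h
    rw [toSky_app]
    exact (Submodule.Quotient.mk_eq_zero L).2 (Submodule.mem_span_singleton_self _)
  have h2 : q t = 0 := by
    rw [← skyEv_toSky, h1, Functor.map_zero]
    exact map_zero _
  have h3 : t ∈ L := (Submodule.Quotient.mk_eq_zero L).1 h2
  obtain ⟨r, hr⟩ := Submodule.mem_span_singleton.1 h3
  exact ⟨r, hr.symm⟩

/-- the stalk is free -/
theorem pv_free {V : X.Opens} {y : X} (hy : y ∈ V) {r : X.presheaf.stalk y}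
    (hr : r • gm (PV V) y V hy (eV V) = 0) : r = 0 := by
  let N : ModuleCat.{0} (X.presheaf.stalk y) := ModuleCat.of _ (X.presheaf.stalk y)
  let s : Γ(skyObj y N, V) := (skySec y N V).symm (fun _ => (1 : X.presheaf.stalk y))
  have h1 : skyEv y N ((stalkMod X y).map (pvHom s) (gm (PV V) y V hy (eV V))) =
      (1 : X.presheaf.stalk y) := by
    rw [map_gm, pvHom_app]
    exact skyEv_gm y N V hy s
  have h2 := congrArg (fun z => skyEv y N ((stalkMod X y).map (pvHom s) z)) hr
  have h3 : skyEv y N ((stalkMod X y).map (pvHom s) (r • gm (PV V) y V hy (eV V))) =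
      r • skyEv y N ((stalkMod X y).map (pvHom s) (gm (PV V) y V hy (eV V))) := by
    rw [map_smul, map_smul]
  change skyEv y N ((stalkMod X y).map (pvHom s) (r • gm (PV V) y V hy (eV V))) =
    skyEv y N ((stalkMod X y).map (pvHom s) 0) at h2
  rw [h3, h1, map_zero, map_zero] at h2
  rw [← mul_one r]
  exact h2

/-- the stalk outside `V` is zero -/
theorem pv_zero {V : X.Opens} {y : X} (hy : y ∉ V) (t : (stalkMod X y).obj (PV V)) : t = 0 := by
  have h1 : (toSky (𝟙 _) : PV V ⟶ skyObj y ((stalkMod X y).obj (PV V))) = 0 := by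
    apply pv_ext
    apply (skySec y _ V).injective
    funext h
    exact absurd h.down hy
  have h2 : (𝟙 ((stalkMod X y).obj (PV V)) : _ ⟶ _) t = 0 := by
    rw [← skyEv_toSky, h1, Functor.map_zero]
    exact map_zero _
  exact h2

end M21
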