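import Pool.Agent.H.MP_21b43d_ag.S.Conserv
import Pool.Agent.H.MP_21b43d_ag.S.PV
import Pool.Agent.H.MP_21b43d_ag.S.EndSky
import Pool.Agent.H.MP_21b43d_ag.CA2

/-!
# M21: the Koszul resolution of the skyscraper sheaf of a closed point near the point
-/

open CategoryTheory CategoryTheory.Limits CategoryTheory.Pretriangulated AlgebraicGeometry
  TopologicalSpace Opposite

noncomputable section

namespace M21

variable {X : Scheme.{0}}

theorem germ_resF {U V : X.Opens} (hV : V ≤ U) (y : X) (hy : y ∈ V) (f : Γ(X, U)) :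
    X.presheaf.germ V y hy (resF hV f) = X.presheaf.germ U y (hV hy) f :=
  X.presheaf.germ_res_apply (homOfLE hV) y hy f

/-- two functions on `V` which define `x` and form a regular sequence -/
structure Kos (x : X) (V : X.Opens) (a b : Γ(X, V)) : Prop where
  mem : x ∈ V
  closed : IsClosed ({x} : Set X)
  par : IsPar2 (X.presheaf.stalk x) (X.presheaf.germ V x mem a) (X.presheaf.germ V x mem b)
  reg : ∀ (y : X) (hy : y ∈ V) (r : X.presheaf.stalk y), X.presheaf.germ V y hy a * r = 0 → r = 0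
  unit : ∀ (y : X) (hy : y ∈ V), y ≠ x → IsUnit (X.presheaf.germ V y hy a) ∨
    IsUnit (X.presheaf.germ V y hy b)

theorem Kos.res {x : X} {V V' : X.Opens} {a b : Γ(X, V)} (h : Kos x V a b) (hV : V' ≤ V)
    (hx : x ∈ V') : Kos x V' (resF hV a) (resF hV b) where
  mem := hx
  closed := h.closed
  par := by
    rw [germ_resF, germ_resF]
    exact h.par
  reg y hy r hr := by
    rw [germ_resF] at hr
    exact h.reg y (hV hy) r hr
  unit y hy hyx := by
    rw [germ_resF, germ_resF]
    exact h.unit y (hV hy) hyx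

theorem mV_germ {V : X.Opens} (a : Γ(X, V)) {y : X} (hy : y ∈ V) (r : X.presheaf.stalk y) :
    (stalkMod X y).map (mV a) (r • gm (PV V) y V hy (eV V)) =
      (X.presheaf.germ V y hy a * r) • gm (PV V) y V hy (eV V) := by
  rw [map_smul, map_gm, mV_app, gm_smul, smul_smul, mul_comm]

/-- the module `P_V / a` -/
def QV {V : X.Opens} (a : Γ(X, V)) : X.Modules := cokernel (mV a)

/-- the projection `P_V ⟶ P_V / a` -/
def pQ {V : X.Opens} (a : Γ(X, V)) : PV V ⟶ QV a := cokernel.π (mV a)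

instance {V : X.Opens} (a : Γ(X, V)) : Epi (pQ a) := inferInstanceAs (Epi (cokernel.π (mV a)))

theorem mV_pQ {V : X.Opens} (a : Γ(X, V)) : mV a ≫ pQ a = 0 := cokernel.condition _

/-- the map out of `P_V / a` -/
def qDesc {V : X.Opens} (a : Γ(X, V)) {M : X.Modules} (φ : PV V ⟶ M) (h : mV a ≫ φ = 0) :
    QV a ⟶ M := cokernel.desc (mV a) φ h

theorem pQ_qDesc {V : X.Opens} (a : Γ(X, V)) {M : X.Modules} (φ : PV V ⟶ M) (h : mV a ≫ φ = 0) :
    pQ a ≫ qDesc a φ h = φ := cokernel.π_desc _ _ _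

/-- the sequence `P_V ⟶ P_V ⟶ P_V / a` -/
def S1 {V : X.Opens} (a : Γ(X, V)) : ShortComplex X.Modules :=
  ShortComplex.mk (mV a) (pQ a) (mV_pQ a)

theorem S1_exact {V : X.Opens} (a : Γ(X, V)) : (S1 a).Exact :=
  ShortComplex.exact_of_g_is_cokernel _ (cokernelIsCokernel (mV a))

variable {x : X} {V : X.Opens} {a b : Γ(X, V)}

theorem Kos.mono (h : Kos x V a b) : Mono (mV a) := by
  apply mono_of_stalks
  intro y t ht
  by_cases hy : y ∈ V
  · obtain ⟨r, rfl⟩ := pv_gen hy t
    rw [mV_germ] at ht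
    rw [h.reg y hy r (pv_free hy ht), zero_smul]
  · exact pv_zero hy t

theorem Kos.S1 (h : Kos x V a b) : (S1 a).ShortExact :=
  { exact := S1_exact a, mono_f := h.mono, epi_g := inferInstanceAs (Epi (pQ a)) }

/-- multiplication by `b` on `P_V / a` -/
def bQ (a b : Γ(X, V)) : QV a ⟶ QV a :=
  qDesc a (mV b ≫ pQ a) (by
    rw [← Category.assoc, mV_comm, Category.assoc, mV_pQ, comp_zero])

theorem pQ_bQ (a b : Γ(X, V)) : pQ a ≫ bQ a b = mV b ≫ pQ a := pQ_qDesc _ _ _

/-- an element of the stalk of `P_V / a` is zero if and only if it is a multiple of `a` -/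
theorem pQ_germ_eq_zero {y : X} (hy : y ∈ V) (r : X.presheaf.stalk y) :
    (stalkMod X y).map (pQ a) (r • gm (PV V) y V hy (eV V)) = 0 ↔
      X.presheaf.germ V y hy a ∣ r := by
  constructor
  · intro h
    obtain ⟨s, hs⟩ := stalk_exact (M21.S1 a) (S1_exact a) y _ h
    obtain ⟨r', rfl⟩ := pv_gen hy s
    have hs' : (X.presheaf.germ V y hy a * r') • gm (PV V) y V hy (eV V) =
        r • gm (PV V) y V hy (eV V) := (mV_germ a hy r').symm.trans hs
    refine ⟨r', ?_⟩
    have h3 : (r - X.presheaf.germ V y hy a * r') • gm (PV V) y V hy (eV V) = 0 := by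
      rw [sub_smul, hs', sub_self]
    exact sub_eq_zero.1 (pv_free hy h3)
  · rintro ⟨r', rfl⟩
    rw [← mV_germ, ← ConcreteCategory.comp_apply, ← Functor.map_comp, mV_pQ, Functor.map_zero]
    rfl

theorem qv_gen {y : X} (hy : y ∈ V) (t : (stalkMod X y).obj (QV a)) :
    ∃ r : X.presheaf.stalk y,
      t = (stalkMod X y).map (pQ a) (r • gm (PV V) y V hy (eV V)) := by
  obtain ⟨s, rfl⟩ := stalk_surj_of_epi (pQ a) y t
  obtain ⟨r, rfl⟩ := pv_gen hy s
  exact ⟨r, rfl⟩

theorem qv_zero {y : X} (hy : y ∉ V) (t : (stalkMod X y).obj (QV a)) : t = 0 := by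
  obtain ⟨s, rfl⟩ := stalk_surj_of_epi (pQ a) y t
  rw [pv_zero hy s, map_zero]

theorem bQ_germ {y : X} (hy : y ∈ V) (r : X.presheaf.stalk y) :
    (stalkMod X y).map (bQ a b) ((stalkMod X y).map (pQ a) (r • gm (PV V) y V hy (eV V))) =
      (stalkMod X y).map (pQ a)
        ((X.presheaf.germ V y hy b * r) • gm (PV V) y V hy (eV V)) := by
  rw [← ConcreteCategory.comp_apply, ← Functor.map_comp, pQ_bQ, Functor.map_comp,
    ConcreteCategory.comp_apply, mV_germ]

theorem Kos.mono_bQ (h : Kos x V a b) : Mono (bQ a b) := by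
  apply mono_of_stalks
  intro y t ht
  by_cases hy : y ∈ V
  · obtain ⟨r, rfl⟩ := qv_gen hy t
    rw [bQ_germ, pQ_germ_eq_zero] at ht
    rw [pQ_germ_eq_zero]
    by_cases hyx : y = x
    · subst hyx
      exact h.par.reg₂ r ht
    · rcases h.unit y hy hyx with hu | hu
      · exact hu.dvd
      · exact (hu.dvd_mul_left).1 ht
  · exact qv_zero hy t

/-- the section `1` of the skyscraper sheaf -/
def oneS (x : X) (V : X.Opens) : Γ((skyFun x).obj (kap x), V) :=
  (skySec x (kap x) V).symm (fun _ => (1 : X.residueField x))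

theorem smul_oneS (x : X) (V : X.Opens) (c : Γ(X, V)) (h : x ∈ V) :
    skySec x (kap x) V (c • oneS x V) ⟨h⟩ = X.residue x (X.presheaf.germ V x h c) := by
  change X.presheaf.germ V x h c • (1 : X.residueField x) = _
  rw [kap_smul, mul_one]

theorem smul_oneS_eq_zero (x : X) (V : X.Opens) (c : Γ(X, V))
    (hc : ∀ h : x ∈ V, X.presheaf.germ V x h c ∈ IsLocalRing.maximalIdeal (X.presheaf.stalk x)) :
    c • oneS x V = 0 := by
  apply (skySec x (kap x) V).injective
  funext h
  rw [smul_oneS x V c h.down]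
  exact (IsLocalRing.residue_eq_zero_iff _).2 (hc h.down)

/-- the map `P_V ⟶ 𝒪_x` -/
def pK (x : X) (V : X.Opens) : PV V ⟶ (skyFun x).obj (kap x) := pvHom (oneS x V)

theorem Kos.mV_pK (h : Kos x V a b) : mV a ≫ pK x V = 0 := by
  rw [pK, mV_pvHom, smul_oneS_eq_zero x V a (fun _ => h.par.mem₁)]
  apply pv_ext
  rw [pvHom_app]
  rfl

theorem Kos.mV_pK' (h : Kos x V a b) : mV b ≫ pK x V = 0 := by
  rw [pK, mV_pvHom, smul_oneS_eq_zero x V b (fun _ => h.par.mem₂)]
  apply pv_ext
  rw [pvHom_app]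
  rfl

/-- the map `P_V / a ⟶ 𝒪_x` -/
def Kos.qK (h : Kos x V a b) : QV a ⟶ (skyFun x).obj (kap x) := qDesc a (pK x V) h.mV_pK

theorem Kos.pQ_qK (h : Kos x V a b) : pQ a ≫ h.qK = pK x V := pQ_qDesc _ _ _

theorem Kos.bQ_qK (h : Kos x V a b) : bQ a b ≫ h.qK = 0 := by
  rw [← cancel_epi (pQ a), ← Category.assoc, pQ_bQ, Category.assoc, h.pQ_qK, h.mV_pK', comp_zero]

/-- the sequence `P_V / a ⟶ P_V / a ⟶ 𝒪_x` -/
def Kos.S2 (h : Kos x V a b) : ShortComplex X.Modules :=
  ShortComplex.mk (bQ a b) h.qK h.bQ_qK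

theorem zeroAt_sky (N : ModuleCat.{0} (X.presheaf.stalk x)) (hx : IsClosed ({x} : Set X)) {y : X}
    (hy : y ≠ x) : ZeroAt ((skyFun x).obj N) y := by
  intro U hyU s
  refine ⟨U ⊓ ⟨{x}ᶜ, hx.isOpen_compl⟩, inf_le_left, ⟨hyU, hy⟩, ?_⟩
  apply (skySec x N _).injective
  funext h
  exact absurd rfl h.down.2

theorem pK_germ (hx : x ∈ V) (r : X.presheaf.stalk x) :
    skyEv x (kap x) ((stalkMod X x).map (pK x V) (r • gm (PV V) x V hx (eV V))) =
      X.residue x r := by
  rw [map_smul, map_gm, pK, pvHom_app]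
  have h1 : skyEv x (kap x) (gm _ x V hx (oneS x V)) = (1 : X.residueField x) :=
    skyEv_gm x (kap x) V hx _
  have h2 : skyEv x (kap x) (r • gm _ x V hx (oneS x V)) =
      r • skyEv x (kap x) (gm _ x V hx (oneS x V)) := map_smul (skyEv x (kap x)) r _
  rw [h1] at h2
  exact h2.trans ((kap_smul x r 1).trans (mul_one _))

theorem Kos.S2_exact (h : Kos x V a b) : h.S2.ShortExact := by
  refine { exact := ?_, mono_f := h.mono_bQ, epi_g := ?_ }
  · apply exact_of_stalks'
    intro y t ht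
    by_cases hy : y ∈ V
    · obtain ⟨r, rfl⟩ := qv_gen hy t
      suffices hs : ∃ r', X.presheaf.germ V y hy a ∣ r - X.presheaf.germ V y hy b * r' by
        obtain ⟨r', hr'⟩ := hs
        refine ⟨(stalkMod X y).map (pQ a) (r' • gm (PV V) y V hy (eV V)), ?_⟩
        refine (bQ_germ hy r').trans ?_
        rw [← pQ_germ_eq_zero hy, sub_smul, map_sub, sub_eq_zero] at hr'
        exact hr'.symm
      by_cases hyx : y = x
      · subst hyx
        have h1 : X.residue y r = 0 := by
          rw [← pK_germ hy r]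
          have h2 : (stalkMod X y).map (pK y V) (r • gm (PV V) y V hy (eV V)) = 0 := by
            rw [← h.pQ_qK, Functor.map_comp, ConcreteCategory.comp_apply]
            exact ht
          rw [h2]
          exact map_zero (skyEv y (kap y))
        have h3 : r ∈ IsLocalRing.maximalIdeal (X.presheaf.stalk y) :=
          (IsLocalRing.residue_eq_zero_iff r).1 h1
        rw [h.par.max, Ideal.mem_span_pair] at h3
        obtain ⟨p, q, hpq⟩ := h3
        refine ⟨q, p, ?_⟩
        rw [← hpq]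
        ring
      · rcases h.unit y hy hyx with hu | hu
        · exact ⟨0, hu.dvd⟩
        · obtain ⟨u, hu⟩ := hu
          refine ⟨(↑u⁻¹ : X.presheaf.stalk y) * r, ?_⟩
          rw [← hu, Units.mul_inv_cancel_left, sub_self]
          exact dvd_zero _
    · exact ⟨0, by rw [map_zero]; exact (qv_zero hy t).symm⟩
  · apply epi_of_stalks
    intro y t
    by_cases hyx : y = x
    · subst hyx
      obtain ⟨r, hr⟩ := (Ideal.Quotient.mk_surjective : Function.Surjective (X.residue y).hom)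
        (skyEv y (kap y) t)
      refine ⟨(stalkMod X y).map (pQ a) (r • gm (PV V) y V h.mem (eV V)), ?_⟩
      apply (skyEv_bijective y (kap y)).1
      rw [← hr]
      refine Eq.trans ?_ (pK_germ h.mem r)
      rw [← h.pQ_qK, Functor.map_comp, ConcreteCategory.comp_apply]
      rfl
    · refine ⟨0, ?_⟩
      have h1 := (zeroAt_iff _ y).1 (zeroAt_sky (kap x) h.closed hyx)
      rw [ModuleCat.isZero_iff_subsingleton] at h1
      exact @Subsingleton.elim _ h1 _ _

end M21
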