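import Pool.Agent.H.MP_21b43d_ag.S.Stalk

/-!
# M21: skyscraper modules, right adjoint to the stalk functor
-/

open CategoryTheory CategoryTheory.Limits AlgebraicGeometry TopologicalSpace Opposite

noncomputable section

namespace M21

variable {X : Scheme.{0}}

section

variable (x : X) (N : Type) [AddCommGroup N] [Module (X.presheaf.stalk x) N]

/-- the skyscraper presheaf of abelian groups: `U ↦ N` if `x ∈ U` and `0` otherwise, written as
functions on the proposition `x ∈ U` -/
def skyPre : TopCat.Presheaf Ab X where
  obj U := AddCommGrpCat.of (PLift (x ∈ U.unop) → N)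
  map i := AddCommGrpCat.ofHom
    { toFun := fun s h => s ⟨leOfHom i.unop h.down⟩
      map_zero' := rfl
      map_add' := fun _ _ => rfl }

instance skyPreModule (U : X.Opensᵒᵖ) : Module (X.ringCatSheaf.obj.obj U) ((skyPre x N).obj U) where
  smul r s := fun h => (X.presheaf.germ U.unop x h.down r : X.presheaf.stalk x) • s h
  one_smul s := by
    funext h
    exact (congrArg (fun a => a • s h) (map_one (X.presheaf.germ U.unop x h.down).hom)).trans
      (one_smul _ _)
  mul_smul r r' s := by
    funext h
    exact (congrArg (fun a => a • s h) (map_mul (X.presheaf.germ U.unop x h.down).hom r r')).trans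
      (mul_smul _ _ _)
  smul_zero r := by
    funext h
    exact smul_zero _
  smul_add r s t := by
    funext h
    exact smul_add _ _ _
  add_smul r r' s := by
    funext h
    exact (congrArg (fun a => a • s h) (map_add (X.presheaf.germ U.unop x h.down).hom r r')).trans
      (add_smul _ _ _)
  zero_smul s := by
    funext h
    exact (congrArg (fun a => a • s h) (map_zero (X.presheaf.germ U.unop x h.down).hom)).trans
      (zero_smul _ _)

/-- the skyscraper presheaf of modules -/
def skyPreMod : PresheafOfModules.{0} X.ringCatSheaf.obj :=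
  PresheafOfModules.ofPresheaf (skyPre x N) (fun {U V} i r s => by
    funext h
    change (X.presheaf.germ U.unop x (leOfHom i.unop h.down)).hom r • s _ =
      (X.presheaf.germ V.unop x h.down).hom (X.presheaf.map i r) • s _
    congr 1
    exact (TopCat.Presheaf.germ_res_apply X.presheaf i.unop x h.down r).symm)

omit [Module (X.presheaf.stalk x) N] in
lemma skyPre_isSheaf : (skyPre x N).IsSheaf := by
  rw [TopCat.Presheaf.isSheaf_iff_isSheafUniqueGluing]
  intro I U s hs
  classical
  refine ⟨fun h => if h' : ∃ i, x ∈ U i then s h'.choose ⟨h'.choose_spec⟩ else 0, ?_, ?_⟩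
  · intro i
    funext h
    have h' : ∃ i, x ∈ U i := ⟨i, h.down⟩
    have e := congrFun (hs i h'.choose) ⟨h.down, h'.choose_spec⟩
    change (if h' : ∃ i, x ∈ U i then s h'.choose ⟨h'.choose_spec⟩ else 0) = s i h
    rw [dif_pos h']
    exact e.symm
  · intro t ht
    funext h
    obtain ⟨i, hi⟩ := TopologicalSpace.Opens.mem_iSup.1 h.down
    have h' : ∃ i, x ∈ U i := ⟨i, hi⟩
    have e := congrFun (ht h'.choose) ⟨h'.choose_spec⟩
    change t h = (if h' : ∃ i, x ∈ U i then s h'.choose ⟨h'.choose_spec⟩ else 0)
    rw [dif_pos h', ← e]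
    rfl

/-- the skyscraper sheaf of modules with stalk `N` at `x` (and support the closure of `x`) -/
def skyObj : X.Modules where
  val := skyPreMod x N
  isSheaf := skyPre_isSheaf x N

/-- sections of the skyscraper sheaf -/
def skySec (U : X.Opens) : Γ(skyObj x N, U) ≃+ (PLift (x ∈ U) → N) := AddEquiv.refl _

/-- evaluation of the stalk of the skyscraper presheaf -/
def skyEvAb : TopCat.Presheaf.stalk (skyPre x N) x ⟶ AddCommGrpCat.of N :=
  colimit.desc ((OpenNhds.inclusion x).op ⋙ skyPre x N)
    { pt := AddCommGrpCat.of N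
      ι :=
        { app := fun U => AddCommGrpCat.ofHom
            { toFun := fun s => s ⟨U.unop.2⟩
              map_zero' := rfl
              map_add' := fun _ _ => rfl } } }

omit [Module (X.presheaf.stalk x) N] in
lemma skyEvAb_germ (U : X.Opens) (hx : x ∈ U) (s : PLift (x ∈ U) → N) :
    skyEvAb x N (TopCat.Presheaf.germ (skyPre x N) U x hx s) = s ⟨hx⟩ := by
  have h := colimit.ι_desc (F := (OpenNhds.inclusion x).op ⋙ skyPre x N)
    { pt := AddCommGrpCat.of N
      ι :=
        { app := fun U => AddCommGrpCat.ofHom
            { toFun := fun s => s ⟨U.unop.2⟩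
              map_zero' := rfl
              map_add' := fun _ _ => rfl } } } (op ⟨U, hx⟩)
  exact ConcreteCategory.congr_hom h s

/-- the counit of the adjunction -/
def skyEv : (stalkMod X x).obj (skyObj x N) →ₗ[X.presheaf.stalk x] N where
  toFun := (skyEvAb x N).hom
  map_add' := map_add _
  map_smul' r m := by
    obtain ⟨U, hxU, r, rfl⟩ := TopCat.Presheaf.exists_germ_eq X.presheaf r
    obtain ⟨V, hVU, hxV, m, rfl⟩ := exists_le_gm (skyObj x N) x m hxU
    have h1 : X.presheaf.germ U x hxU r =
        X.presheaf.germ V x hxV (X.presheaf.map (homOfLE hVU).op r) :=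
      (TopCat.Presheaf.germ_res_apply X.presheaf (homOfLE hVU) x hxV r).symm
    rw [h1, ← gm_smul]
    exact (skyEvAb_germ x N V hxV _).trans
      (congrArg (fun a => X.presheaf.germ V x hxV (X.presheaf.map (homOfLE hVU).op r) • a)
        (skyEvAb_germ x N V hxV m).symm)

lemma skyEv_gm (U : X.Opens) (hx : x ∈ U) (s : Γ(skyObj x N, U)) :
    skyEv x N (gm (skyObj x N) x U hx s) = skySec x N U s ⟨hx⟩ :=
  skyEvAb_germ x N U hx s

end

/-- the map into a skyscraper sheaf given by a map on the stalk -/
def toSky {x : X} {M : X.Modules} {N : ModuleCat.{0} (X.presheaf.stalk x)}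
    (ψ : (stalkMod X x).obj M ⟶ N) : M ⟶ skyObj x N :=
  ⟨PresheafOfModules.homMk
    { app := fun U => AddCommGrpCat.ofHom
        { toFun := fun m h => ψ (gm M x U.unop h.down m)
          map_zero' := by
            funext h
            exact (congrArg ψ (gm_zero M x U.unop h.down)).trans (map_zero ψ.hom)
          map_add' := fun m n => by
            funext h
            exact (congrArg ψ (gm_add M x U.unop h.down m n)).trans (map_add ψ.hom _ _) }
      naturality := fun U V i => by
        ext m
        funext h
        exact congrArg ψ (gm_res M x (leOfHom i.unop) h.down m) }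
    (fun U r m => by
      funext h
      exact (congrArg ψ (gm_smul M x U.unop h.down r m)).trans (map_smul ψ.hom _ _))⟩

lemma toSky_app {x : X} {M : X.Modules} {N : ModuleCat.{0} (X.presheaf.stalk x)}
    (ψ : (stalkMod X x).obj M ⟶ N) (U : X.Opens) (m : Γ(M, U)) (h : x ∈ U) :
    skySec x N U ((toSky ψ).app U m) ⟨h⟩ = ψ (gm M x U h m) := rfl

lemma skyEv_toSky {x : X} {M : X.Modules} {N : ModuleCat.{0} (X.presheaf.stalk x)}
    (ψ : (stalkMod X x).obj M ⟶ N) (m : (stalkMod X x).obj M) :
    skyEv x N ((stalkMod X x).map (toSky ψ) m) = ψ m := by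
  obtain ⟨U, hxU, m, rfl⟩ := exists_gm M x m
  rw [map_gm]
  exact skyEv_gm x N U hxU _

lemma toSky_skyEv {x : X} {M : X.Modules} {N : ModuleCat.{0} (X.presheaf.stalk x)}
    (φ : M ⟶ skyObj x N) :
    toSky ((stalkMod X x).map φ ≫ ModuleCat.ofHom (skyEv x N)) = φ := by
  ext U m
  funext h
  have h1 := skyEv_gm x N U h.down (φ.app U m)
  rw [← map_gm] at h1
  exact h1

/-- the skyscraper functor -/
def skyFun (x : X) : ModuleCat.{0} (X.presheaf.stalk x) ⥤ X.Modules where
  obj N := skyObj x N
  map {N N'} f := toSky (ModuleCat.ofHom (skyEv x N) ≫ f)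
  map_id N := by
    ext U s
    funext h
    exact skyEv_gm x N U h.down s
  map_comp {N N' N''} f g := by
    ext U s
    funext h
    have h1 := skyEv_gm x N' U h.down
      ((toSky (ModuleCat.ofHom (skyEv x N) ≫ f)).app U s)
    exact (congrArg g h1.symm)

lemma skyFun_map_app {x : X} {N N' : ModuleCat.{0} (X.presheaf.stalk x)} (f : N ⟶ N')
    (U : X.Opens) (s : Γ(skyObj x N, U)) (h : x ∈ U) :
    skySec x N' U (((skyFun x).map f).app U s) ⟨h⟩ = f (skySec x N U s ⟨h⟩) :=
  congrArg f (skyEv_gm x N U h s)

/-- the stalk functor is left adjoint to the skyscraper functor -/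
def stalkSkyAdj (x : X) : stalkMod X x ⊣ skyFun x :=
  Adjunction.mkOfHomEquiv
    { homEquiv := fun M N =>
        { toFun := fun ψ => toSky ψ
          invFun := fun φ => (stalkMod X x).map φ ≫ ModuleCat.ofHom (skyEv x N)
          left_inv := fun ψ => by
            ext m
            exact skyEv_toSky ψ m
          right_inv := fun φ => toSky_skyEv φ }
      homEquiv_naturality_left_symm := fun {M M' N} f g =>
        (congrArg (fun a => a ≫ ModuleCat.ofHom (skyEv x N))
          ((stalkMod X x).map_comp f g)).trans (Category.assoc _ _ _)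
      homEquiv_naturality_right := fun {M N N'} f g => by
        ext U m
        funext h
        have h1 := skyEv_gm x N U h.down ((toSky f).app U m)
        exact (congrArg g h1).symm }

end M21
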