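import Pool.Agent.H.MP_21b43d_ag.S.Exact

/-!
# M21: `sky x` is the skyscraper sheaf of the residue field
-/

open CategoryTheory CategoryTheory.Limits AlgebraicGeometry TopologicalSpace Opposite

noncomputable section

namespace M21

variable {X : Scheme.{0}}

/-- the residue field as a module over the local ring -/
instance resModule (x : X) : Module (X.presheaf.stalk x) (X.residueField x) :=
  Module.compHom _ (X.residue x).hom

/-- the residue field as a module over the local ring -/
abbrev kap (x : X) : ModuleCat.{0} (X.presheaf.stalk x) := ModuleCat.of _ (X.residueField x)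

lemma kap_smul (x : X) (r : X.presheaf.stalk x) (c : X.residueField x) :
    r • c = X.residue x r * c := rfl

lemma le_preimage (x : X) {U : X.Opens} (h : x ∈ U) :
    (⊤ : (Spec (X.residueField x)).Opens) ≤ X.fromSpecResidueField x ⁻¹ᵁ U := by
  intro y _
  change X.fromSpecResidueField x y ∈ U
  rw [Scheme.fromSpecResidueField_apply]
  exact h

/-- the value of a section of `sky x` -/
def skyVal (x : X) (U : X.Opens) (h : x ∈ U) :
    Γ(Spec (X.residueField x), X.fromSpecResidueField x ⁻¹ᵁ U) ⟶ X.residueField x :=
  (Spec (X.residueField x)).presheaf.map (homOfLE (le_preimage x h)).op ≫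
    (Scheme.ΓSpecIso (X.residueField x)).hom

lemma skyVal_bijective (x : X) (U : X.Opens) (h : x ∈ U) :
    Function.Bijective (skyVal x U h) := by
  have h1 : IsIso (homOfLE (le_preimage x h)) := by
    have : X.fromSpecResidueField x ⁻¹ᵁ U = ⊤ := top_le_iff.1 (le_preimage x h)
    refine ⟨homOfLE le_top, ?_, ?_⟩ <;> rfl
  have h2 : IsIso (skyVal x U h) := by
    unfold skyVal
    infer_instance
  exact (ConcreteCategory.isIso_iff_bijective _).1 h2

lemma le_preimage' (x : X) {U : X.Opens} (h : x ∈ U) :
    (⊤ : (Spec (X.residueField x)).Opens) ≤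
      Spec.map (X.residue x) ⁻¹ᵁ X.fromSpecStalk x ⁻¹ᵁ U := le_preimage x h

lemma app_skyVal (x : X) (U : X.Opens) (h : x ∈ U) :
    (X.fromSpecResidueField x).app U ≫ skyVal x U h = X.evaluation U x h := by
  have h1 : (X.fromSpecResidueField x).app U ≫ skyVal x U h =
      (X.fromSpecResidueField x).appLE U ⊤ (le_preimage x h) ≫
        (Scheme.ΓSpecIso (X.residueField x)).hom := by
    rw [skyVal, Scheme.Hom.appLE, Category.assoc]
  have h2 : (X.fromSpecResidueField x).appLE U ⊤ (le_preimage x h) =
      (X.fromSpecStalk x).app U ≫ (Spec.map (X.residue x)).appLE (X.fromSpecStalk x ⁻¹ᵁ U) ⊤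
        (le_preimage' x h) := Scheme.Hom.comp_appLE _ _ _ _ _
  have h4 : (⊤ : (Spec (X.residueField x)).Opens) ≤ Spec.map (X.residue x) ⁻¹ᵁ ⊤ := fun _ _ => trivial
  have h3 : (Spec (X.presheaf.stalk x)).presheaf.map
      (homOfLE (le_top : X.fromSpecStalk x ⁻¹ᵁ U ≤ ⊤)).op ≫
      (Spec.map (X.residue x)).appLE (X.fromSpecStalk x ⁻¹ᵁ U) ⊤ (le_preimage' x h) =
      (Spec.map (X.residue x)).appLE ⊤ ⊤ h4 := Scheme.Hom.map_appLE _ _ _
  have h5 : (Spec.map (X.residue x)).appLE ⊤ ⊤ h4 = (Spec.map (X.residue x)).appTop :=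
    Scheme.Hom.appLE_eq_app _
  rw [h1, h2, Scheme.fromSpecStalk_app h, Category.assoc, Category.assoc, Category.assoc,
    reassoc_of% h3, h5, Scheme.ΓSpecIso_naturality, Iso.inv_hom_id_assoc, X.germ_residue x h]

lemma skyVal_res (x : X) {U V : X.Opens} (hV : V ≤ U) (h : x ∈ V)
    (s : Γ(Spec (X.residueField x), X.fromSpecResidueField x ⁻¹ᵁ U)) :
    skyVal x V h (res (sky x) hV s) = skyVal x U (hV h) s := by
  unfold skyVal
  have h1 : (res (sky x) hV s : Γ(Spec (X.residueField x), X.fromSpecResidueField x ⁻¹ᵁ V)) =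
      (Spec (X.residueField x)).presheaf.map
        (homOfLE ((X.fromSpecResidueField x).preimage_mono hV)).op s := rfl
  rw [h1, ← ConcreteCategory.comp_apply, ← Category.assoc, ← Functor.map_comp]
  rfl

lemma skyVal_smul (x : X) (U : X.Opens) (h : x ∈ U) (r : Γ(X, U)) (s : Γ(sky x, U)) :
    skyVal x U h (r • s : Γ(sky x, U)) =
      X.presheaf.germ U x h r • skyVal x U h s := by
  have h1 : (r • s : Γ(sky x, U)) = ((X.fromSpecResidueField x).app U r *
    (show Γ(Spec (X.residueField x), X.fromSpecResidueField x ⁻¹ᵁ U) from s)) := rfl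
  rw [h1]
  refine (map_mul (skyVal x U h).hom _ _).trans ?_
  have h2 := ConcreteCategory.congr_hom (app_skyVal x U h) r
  exact congrArg (· * _) h2

/-- the comparison map -/
def skyHom (x : X) : sky x ⟶ (skyFun x).obj (kap x) :=
  mkHom (M := sky x) (N := (skyFun x).obj (kap x))
    (fun U s => (skySec x (X.residueField x) U).symm (fun h => skyVal x U h.down s))
    (fun U s t => by
      funext h
      exact map_add (skyVal x U h.down).hom s t)
    (fun U r s => by
      funext h
      exact skyVal_smul x U h.down r s)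
    (fun {U V} hV s => by
      funext h
      exact skyVal_res x hV h.down s)

instance skyHom_isIso (x : X) : IsIso (skyHom x) := by
  refine isIso_of_bijective _ fun U => ?_
  by_cases hx : x ∈ U
  · constructor
    · intro s t h
      refine (skyVal_bijective x U hx).1 ?_
      exact congrFun h ⟨hx⟩
    · intro t
      obtain ⟨s, hs⟩ := (skyVal_bijective x U hx).2 (skySec x (X.residueField x) U t ⟨hx⟩)
      refine ⟨s, ?_⟩
      funext h
      exact hs
  · constructor
    · intro s t _
      have h1 : X.fromSpecResidueField x ⁻¹ᵁ U = ⊥ := by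
        rw [eq_bot_iff]
        intro y hy
        exact hx (by
          have h2 : X.fromSpecResidueField x y ∈ U := hy
          rwa [Scheme.fromSpecResidueField_apply] at h2)
      have h3 : Subsingleton Γ(Spec (X.residueField x), X.fromSpecResidueField x ⁻¹ᵁ U) := by
        rw [h1]
        infer_instance
      exact h3.elim s t
    · intro t
      refine ⟨0, ?_⟩
      funext h
      exact (hx h.down).elim

/-- `sky x` is the skyscraper sheaf of the residue field -/
def skyIso (x : X) : sky x ≅ (skyFun x).obj (kap x) := asIso (skyHom x)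

end M21
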