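import Mathlib

/-!
# M21: the stalk functor from sheaves of modules to modules over the local ring
-/

open CategoryTheory CategoryTheory.Limits AlgebraicGeometry TopologicalSpace Opposite

noncomputable section

namespace M21

variable {X : Scheme.{0}}

instance stalkModule (M : X.Modules) (x : X) :
    Module (X.presheaf.stalk x) ↑(TopCat.Presheaf.stalk M.presheaf x) :=
  PresheafOfModules.instModuleCarrierStalkCommRingCatCarrierAbPresheafOpensCarrier
    (R := X.presheaf) M.val x

lemma germ_smul (M : X.Modules) (x : X) (U : X.Opens) (hx : x ∈ U) (r : Γ(X, U)) (m : Γ(M, U)) :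
    TopCat.Presheaf.germ M.presheaf U x hx (r • m) =
      X.presheaf.germ U x hx r • TopCat.Presheaf.germ M.presheaf U x hx m :=
  PresheafOfModules.germ_smul (R := X.presheaf) M.val x U hx r m

lemma stalkMap_germ {M N : X.Modules} (f : M ⟶ N) (x : X) (U : X.Opens) (hx : x ∈ U)
    (m : Γ(M, U)) :
    (TopCat.Presheaf.stalkFunctor Ab x).map f.mapPresheaf
        (TopCat.Presheaf.germ M.presheaf U x hx m) =
      TopCat.Presheaf.germ N.presheaf U x hx (f.app U m) :=
  TopCat.Presheaf.stalkFunctor_map_germ_apply U x hx f.mapPresheaf m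

/-- the map on stalks, as a linear map over the local ring -/
def stalkMapLin {M N : X.Modules} (f : M ⟶ N) (x : X) :
    ↑(TopCat.Presheaf.stalk M.presheaf x) →ₗ[X.presheaf.stalk x]
      ↑(TopCat.Presheaf.stalk N.presheaf x) where
  toFun := ((TopCat.Presheaf.stalkFunctor Ab x).map f.mapPresheaf).hom
  map_add' := map_add _
  map_smul' r m := by
    obtain ⟨U, hxU, r, rfl⟩ := TopCat.Presheaf.exists_germ_eq X.presheaf r
    obtain ⟨V, hVU, hxV, m, rfl⟩ := TopCat.Presheaf.exists_le_germ_eq M.presheaf m hxU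
    have h1 : X.presheaf.germ U x hxU r =
        X.presheaf.germ V x hxV (X.presheaf.map (homOfLE hVU).op r) :=
      (TopCat.Presheaf.germ_res_apply X.presheaf (homOfLE hVU) x hxV r).symm
    rw [h1, ← germ_smul]
    erw [stalkMap_germ f x V hxV, stalkMap_germ f x V hxV]
    rw [Scheme.Modules.Hom.app_smul, germ_smul]
    rfl

variable (X) in
/-- the stalk functor to modules over the local ring -/
def stalkMod (x : X) : X.Modules ⥤ ModuleCat.{0} (X.presheaf.stalk x) where
  obj M := ModuleCat.of _ ↑(TopCat.Presheaf.stalk M.presheaf x)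
  map f := ModuleCat.ofHom (stalkMapLin f x)
  map_id M := by
    ext m
    obtain ⟨U, hxU, m, rfl⟩ := TopCat.Presheaf.exists_germ_eq M.presheaf m
    exact stalkMap_germ (𝟙 M) x U hxU m
  map_comp {M N K} f g := by
    ext m
    obtain ⟨U, hxU, m, rfl⟩ := TopCat.Presheaf.exists_germ_eq M.presheaf m
    exact (stalkMap_germ (f ≫ g) x U hxU m).trans ((stalkMap_germ g x U hxU (f.app U m)).symm.trans
      (congrArg _ (stalkMap_germ f x U hxU m).symm))

/-- the germ of a section, as an element of `(stalkMod X x).obj M` -/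
def gm (M : X.Modules) (x : X) (U : X.Opens) (hx : x ∈ U) (m : Γ(M, U)) :
    (stalkMod X x).obj M :=
  TopCat.Presheaf.germ M.presheaf U x hx m

lemma gm_add (M : X.Modules) (x : X) (U : X.Opens) (hx : x ∈ U) (m n : Γ(M, U)) :
    gm M x U hx (m + n) = gm M x U hx m + gm M x U hx n :=
  map_add (TopCat.Presheaf.germ M.presheaf U x hx).hom m n

lemma gm_zero (M : X.Modules) (x : X) (U : X.Opens) (hx : x ∈ U) :
    gm M x U hx 0 = 0 :=
  map_zero (TopCat.Presheaf.germ M.presheaf U x hx).hom

lemma gm_smul (M : X.Modules) (x : X) (U : X.Opens) (hx : x ∈ U) (r : Γ(X, U)) (m : Γ(M, U)) :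
    gm M x U hx (r • m) = X.presheaf.germ U x hx r • gm M x U hx m :=
  germ_smul M x U hx r m

lemma gm_res (M : X.Modules) (x : X) {U V : X.Opens} (h : V ≤ U) (hx : x ∈ V) (m : Γ(M, U)) :
    gm M x V hx (M.presheaf.map (homOfLE h).op m) = gm M x U (h hx) m :=
  TopCat.Presheaf.germ_res_apply M.presheaf (homOfLE h) x hx m

lemma exists_gm (M : X.Modules) (x : X) (t : (stalkMod X x).obj M) :
    ∃ (U : X.Opens) (hx : x ∈ U) (m : Γ(M, U)), gm M x U hx m = t :=
  TopCat.Presheaf.exists_germ_eq M.presheaf t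

lemma exists_le_gm (M : X.Modules) (x : X) (t : (stalkMod X x).obj M) {V : X.Opens}
    (hV : x ∈ V) :
    ∃ U ≤ V, ∃ (hx : x ∈ U) (m : Γ(M, U)), gm M x U hx m = t := by
  obtain ⟨U, hxU, m, rfl⟩ := exists_gm M x t
  exact ⟨U ⊓ V, inf_le_right, ⟨hxU, hV⟩, _, gm_res M x inf_le_left ⟨hxU, hV⟩ m⟩

lemma gm_eq (M : X.Modules) (x : X) {U V : X.Opens} (hU : x ∈ U) (hV : x ∈ V)
    (s : Γ(M, U)) (t : Γ(M, V)) (h : gm M x U hU s = gm M x V hV t) :
    ∃ (W : X.Opens) (_ : x ∈ W) (h1 : W ≤ U) (h2 : W ≤ V),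
      M.presheaf.map (homOfLE h1).op s = M.presheaf.map (homOfLE h2).op t := by
  obtain ⟨W, hW, i, j, e⟩ := TopCat.Presheaf.germ_eq M.presheaf x hU hV s t h
  exact ⟨W, hW, leOfHom i, leOfHom j, e⟩

lemma map_gm {M N : X.Modules} (f : M ⟶ N) (x : X) (U : X.Opens) (hx : x ∈ U)
    (m : Γ(M, U)) :
    (stalkMod X x).map f (gm M x U hx m) = gm N x U hx (f.app U m) :=
  stalkMap_germ f x U hx m

instance (x : X) : (stalkMod X x).Additive where
  map_add {M N f g} := by
    ext m
    obtain ⟨U, hxU, m, rfl⟩ := exists_gm M x m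
    change (stalkMod X x).map (f + g) (gm M x U hxU m) =
      (stalkMod X x).map f (gm M x U hxU m) + (stalkMod X x).map g (gm M x U hxU m)
    rw [map_gm, map_gm, map_gm, ← gm_add]
    rfl

/-- composing with the forgetful functor gives the usual stalk functor -/
def stalkModForget (x : X) : stalkMod X x ⋙ forget₂ (ModuleCat _) Ab ≅
    Scheme.Modules.toPresheaf X ⋙ TopCat.Presheaf.stalkFunctor Ab x :=
  NatIso.ofComponents (fun M => Iso.refl _) (fun f => by ext; rfl)

end M21
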