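import Mathlib

/-!
# M21: maps from an object in degree zero to an object of the derived category
-/

open CategoryTheory CategoryTheory.Limits CategoryTheory.Pretriangulated

noncomputable section

namespace M21

universe w v u

set_option linter.unusedSectionVars false

variable {C : Type u} [Category.{v} C] [Abelian C] [HasDerivedCategory.{w} C]

open DerivedCategory HomologicalComplex

/-- the map of complexes given by a cycle of degree zero -/
def smHom {P : C} (K : CochainComplex C ℤ) (g : P ⟶ K.X 0) (h : g ≫ K.d 0 1 = 0) :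
    (single C (ComplexShape.up ℤ) 0).obj P ⟶ K :=
  mkHomFromSingle g (fun k hk => by
    obtain rfl : k = 1 := by simpa using hk.symm
    exact h)

theorem smHom_f {P : C} (K : CochainComplex C ℤ) (g : P ⟶ K.X 0) (h : g ≫ K.d 0 1 = 0) :
    (smHom K g h).f 0 = (singleObjXSelf (ComplexShape.up ℤ) 0 P).hom ≫ g := mkHomFromSingle_f _ _

theorem exists_smHom {P : C} (K : CochainComplex C ℤ)
    (f : (single C (ComplexShape.up ℤ) 0).obj P ⟶ K) :
    ∃ (g : P ⟶ K.X 0) (h : g ≫ K.d 0 1 = 0), f = smHom K g h := by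
  refine ⟨(singleObjXSelf (ComplexShape.up ℤ) 0 P).inv ≫ f.f 0, ?_, ?_⟩
  · rw [Category.assoc, f.comm]
    simp
  · apply from_single_hom_ext
    rw [smHom_f]
    simp

theorem map_smHom {P P' : C} (p : P' ⟶ P) (K : CochainComplex C ℤ) (g : P ⟶ K.X 0)
    (h : g ≫ K.d 0 1 = 0) :
    (single C (ComplexShape.up ℤ) 0).map p ≫ smHom K g h =
      smHom K (p ≫ g) (by rw [Category.assoc, h, comp_zero]) := by
  apply from_single_hom_ext
  rw [smHom_f, comp_f, smHom_f, single_map_f_self]
  simp

open CochainComplex.HomComplex in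
/-- a boundary gives the zero map in the derived category -/
theorem Q_smHom_eq_zero {P : C} (K : CochainComplex C ℤ) (g : P ⟶ K.X 0) (h : g ≫ K.d 0 1 = 0)
    (w : P ⟶ K.X (-1)) (hw : w ≫ K.d (-1) 0 = g) : Q.map (smHom K g h) = 0 := by
  let f : (CochainComplex.singleFunctor C 0).obj P ⟶ K := smHom K g h
  have e1 : Cochain.ofHom f = δ (-1) 0 (Cochain.fromSingleMk w (by lia : (0 : ℤ) + (-1) = -1)) +
      Cochain.ofHom 0 := by
    rw [Cochain.δ_fromSingleMk w _ 0 0 (by lia), hw, Cochain.ofHom_zero, add_zero]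
    apply (Cochain.fromSingleEquiv (by lia : (0 : ℤ) + 0 = 0)).injective
    rw [Cochain.fromSingleEquiv_fromSingleMk]
    change (singleObjXSelf (ComplexShape.up ℤ) 0 P).inv ≫ (Cochain.ofHom f).v 0 0 _ = g
    rw [Cochain.ofHom_v]
    change (singleObjXSelf (ComplexShape.up ℤ) 0 P).inv ≫ (smHom K g h).f 0 = g
    rw [smHom_f]
    simp
  have h1 : Homotopy f 0 := (Cochain.equivHomotopy _ _).symm ⟨_, e1⟩
  have h2 : Q.map f = Q.map 0 := Q_map_eq_of_homotopy C h1
  rw [Q.map_zero] at h2
  exact h2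

theorem homologyMap_smHom {P : C} (K : CochainComplex C ℤ) (g : P ⟶ K.X 0)
    (h : g ≫ K.d 0 1 = 0) :
    (singleObjHomologySelfIso (ComplexShape.up ℤ) 0 P).inv ≫ homologyMap (smHom K g h) 0 =
      K.liftCycles g 1 (by simp) h ≫ K.homologyπ 0 := by
  rw [← singleObjCyclesSelfIso_inv_homologyπ, Category.assoc, homologyπ_naturality,
    ← Category.assoc]
  congr 1
  rw [← cancel_mono (K.iCycles 0), Category.assoc, cyclesMap_i, liftCycles_i,
    singleObjCyclesSelfIso_inv_iCycles_assoc, smHom_f]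
  simp

/-- the value of a map in the derived category -/
def hv {P : C} {A : DerivedCategory C} (φ : (singleFunctor C 0).obj P ⟶ A) :
    P ⟶ (DerivedCategory.homologyFunctor C 0).obj A :=
  (singleFunctorCompHomologyFunctorIso C 0).inv.app P ≫
    (DerivedCategory.homologyFunctor C 0).map φ

theorem hv_add {P : C} {A : DerivedCategory C} (φ ψ : (singleFunctor C 0).obj P ⟶ A) :
    hv (φ + ψ) = hv φ + hv ψ := by
  unfold hv
  rw [Functor.map_add, Preadditive.comp_add]

theorem hv_neg {P : C} {A : DerivedCategory C} (φ : (singleFunctor C 0).obj P ⟶ A) :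
    hv (-φ) = - hv φ := by
  unfold hv
  rw [Functor.map_neg, Preadditive.comp_neg]

theorem hv_comp {P : C} {A B : DerivedCategory C} (φ : (singleFunctor C 0).obj P ⟶ A)
    (f : A ⟶ B) : hv (φ ≫ f) = hv φ ≫ (DerivedCategory.homologyFunctor C 0).map f := by
  unfold hv
  rw [Functor.map_comp, Category.assoc]

theorem hv_map {P P' : C} (p : P' ⟶ P) {A : DerivedCategory C}
    (φ : (singleFunctor C 0).obj P ⟶ A) : hv ((singleFunctor C 0).map p ≫ φ) = p ≫ hv φ := by
  unfold hv
  rw [Functor.map_comp, ← Category.assoc, ← Category.assoc]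
  congr 1
  exact ((singleFunctorCompHomologyFunctorIso C 0).inv.naturality p).symm

/-- the map in the derived category given by a cycle -/
def cyc {P : C} (K : CochainComplex C ℤ) (g : P ⟶ K.X 0) (h : g ≫ K.d 0 1 = 0) :
    (singleFunctor C 0).obj P ⟶ Q.obj K :=
  Q.map (smHom K g h)

set_option backward.defeqAttrib.useBackward true in
set_option backward.isDefEq.respectTransparency false in
theorem inv_app_eq (P : C) : (singleFunctorCompHomologyFunctorIso C 0).inv.app P =
      (singleObjHomologySelfIso (ComplexShape.up ℤ) 0 P).inv ≫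
      (homologyFunctorFactors C 0).inv.app ((single C (ComplexShape.up ℤ) 0).obj P) := by
  simp only [singleFunctorCompHomologyFunctorIso]
  simp
  rw [singleFunctorsPostcompQIso_inv_hom]
  have h1 : (DerivedCategory.homologyFunctor C 0).map
      (NatTrans.app (𝟙 (((CochainComplex.singleFunctors C).postcomp Q).functor 0)) P) =
      𝟙 ((DerivedCategory.homologyFunctor C 0).obj
        (Q.obj ((single C (ComplexShape.up ℤ) 0).obj P))) :=
    (DerivedCategory.homologyFunctor C 0).map_id _
  exact (congrArg (fun z => (homologyFunctorFactors C 0).inv.app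
    ((single C (ComplexShape.up ℤ) 0).obj P) ≫ z) h1).trans (Category.comp_id _)

/-- the homology of a complex -/
def fI (K : CochainComplex C ℤ) :
    K.homology 0 ≅ (DerivedCategory.homologyFunctor C 0).obj (Q.obj K) :=
  (homologyFunctorFactors C 0).symm.app K

theorem hv_cyc {P : C} (K : CochainComplex C ℤ) (g : P ⟶ K.X 0) (h : g ≫ K.d 0 1 = 0) :
    hv (cyc K g h) = K.liftCycles g 1 (by simp) h ≫ K.homologyπ 0 ≫ (fI K).hom := by
  have h2 : (homologyFunctorFactors C 0).inv.app ((single C (ComplexShape.up ℤ) 0).obj P) ≫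
      (DerivedCategory.homologyFunctor C 0).map (Q.map (smHom K g h)) =
      homologyMap (smHom K g h) 0 ≫ (homologyFunctorFactors C 0).inv.app K :=
    ((homologyFunctorFactors C 0).inv.naturality (smHom K g h)).symm
  have h3 := homologyMap_smHom K g h
  have h4 : hv (cyc K g h) = ((singleObjHomologySelfIso (ComplexShape.up ℤ) 0 P).inv ≫
      (homologyFunctorFactors C 0).inv.app ((single C (ComplexShape.up ℤ) 0).obj P)) ≫
      (DerivedCategory.homologyFunctor C 0).map (Q.map (smHom K g h)) :=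
    congrArg (fun z => z ≫ (DerivedCategory.homologyFunctor C 0).map (Q.map (smHom K g h)))
      (inv_app_eq P)
  have h5 : ((singleObjHomologySelfIso (ComplexShape.up ℤ) 0 P).inv ≫
      (homologyFunctorFactors C 0).inv.app ((single C (ComplexShape.up ℤ) 0).obj P)) ≫
      (DerivedCategory.homologyFunctor C 0).map (Q.map (smHom K g h)) =
      (singleObjHomologySelfIso (ComplexShape.up ℤ) 0 P).inv ≫
      ((homologyFunctorFactors C 0).inv.app ((single C (ComplexShape.up ℤ) 0).obj P) ≫
      (DerivedCategory.homologyFunctor C 0).map (Q.map (smHom K g h))) := Category.assoc _ _ _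
  have h6 : (singleObjHomologySelfIso (ComplexShape.up ℤ) 0 P).inv ≫
      (homologyMap (smHom K g h) 0 ≫ (homologyFunctorFactors C 0).inv.app K) =
      ((singleObjHomologySelfIso (ComplexShape.up ℤ) 0 P).inv ≫
      homologyMap (smHom K g h) 0) ≫ (homologyFunctorFactors C 0).inv.app K :=
    (Category.assoc _ _ _).symm
  refine h4.trans (h5.trans ?_)
  refine (congrArg (fun z => (singleObjHomologySelfIso (ComplexShape.up ℤ) 0 P).inv ≫ z)
    h2).trans (h6.trans ?_)
  exact (congrArg (fun z => z ≫ (homologyFunctorFactors C 0).inv.app K) h3).trans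
    (Category.assoc _ _ _)

theorem map_cyc {P P' : C} (p : P' ⟶ P) (K : CochainComplex C ℤ) (g : P ⟶ K.X 0)
    (h : g ≫ K.d 0 1 = 0) (h' : (p ≫ g) ≫ K.d 0 1 = 0) :
    (singleFunctor C 0).map p ≫ cyc K g h = cyc K (p ≫ g) h' := by
  have h1 : Q.map ((single C (ComplexShape.up ℤ) 0).map p) ≫ Q.map (smHom K g h) =
      Q.map (smHom K (p ≫ g) h') := by
    rw [← Q.map_comp, map_smHom]
  exact h1

theorem cyc_eq_zero {P : C} (K : CochainComplex C ℤ) (g : P ⟶ K.X 0) (h : g ≫ K.d 0 1 = 0)
    (w : P ⟶ K.X (-1)) (hw : w ≫ K.d (-1) 0 = g) : cyc K g h = 0 :=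
  Q_smHom_eq_zero K g h w hw

/-- every map from an object in degree zero is given by a cycle of some complex -/
theorem exists_cyc {P : C} {A : DerivedCategory C} (φ : (singleFunctor C 0).obj P ⟶ A) :
    ∃ (L : CochainComplex C ℤ) (e : A ≅ Q.obj L) (g : P ⟶ L.X 0) (h : g ≫ L.d 0 1 = 0),
      φ ≫ e.hom = cyc L g h := by
  obtain ⟨K, ⟨e⟩⟩ : ∃ K, Nonempty (A ≅ Q.obj K) := ⟨_, ⟨(Q.objObjPreimageIso A).symm⟩⟩
  obtain ⟨L, f, s, hs, hf⟩ := left_fac
    (X := (single C (ComplexShape.up ℤ) 0).obj P) (Y := K) (φ ≫ e.hom)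
  obtain ⟨g, h, rfl⟩ := exists_smHom L f
  refine ⟨L, e ≪≫ asIso (Q.map s), g, h, ?_⟩
  have h2 : φ ≫ (e ≪≫ asIso (Q.map s)).hom = (φ ≫ e.hom) ≫ Q.map s := by
    rw [Iso.trans_hom, asIso_hom, Category.assoc]
  have h3 : (Q.map (smHom L g h) ≫ inv (Q.map s)) ≫ Q.map s = Q.map (smHom L g h) := by
    rw [Category.assoc, IsIso.inv_hom_id, Category.comp_id]
  exact h2.trans ((congrArg (fun z => z ≫ Q.map s) hf).trans h3)

end M21
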