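import Pool.Agent.H.MP_21b43d_ag.S.Val
import Pool.Agent.H.MP_21b43d_ag.S.Koszul

/-!
# M21: germs of cohomology classes are maps from `P_V`
-/

open CategoryTheory CategoryTheory.Limits CategoryTheory.Pretriangulated AlgebraicGeometry
  TopologicalSpace Opposite

noncomputable section

namespace M21

variable {X : Scheme.{0}} {x : X} {V : X.Opens}

/-- an object in degree zero -/
abbrev sgV (M : X.Modules) : DMod X := (DerivedCategory.singleFunctor X.Modules 0).obj M

/-- a morphism in degree zero -/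
abbrev sgmV {M N : X.Modules} (f : M ⟶ N) : sgV M ⟶ sgV N :=
  (DerivedCategory.singleFunctor X.Modules 0).map f

/-- the germ of a map from `P_V` -/
def vl (hx : x ∈ V) {A : DMod X} (φ : sgV (PV V) ⟶ A) : (stalkMod X x).obj (hh 0 A) :=
  (stalkMod X x).map (hv φ) (gm (PV V) x V hx (eV V))

theorem vl_add (hx : x ∈ V) {A : DMod X} (φ ψ : sgV (PV V) ⟶ A) :
    vl hx (φ + ψ) = vl hx φ + vl hx ψ := by
  unfold vl
  rw [hv_add, Functor.map_add]
  rfl

theorem vl_neg (hx : x ∈ V) {A : DMod X} (φ : sgV (PV V) ⟶ A) :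
    vl hx (-φ) = - vl hx φ := by
  unfold vl
  rw [hv_neg, Functor.map_neg]
  rfl

theorem vl_iV {V' : X.Opens} (h : V' ≤ V) (hx : x ∈ V') {A : DMod X} (φ : sgV (PV V) ⟶ A) :
    vl hx (sgmV (iV h) ≫ φ) = vl (h hx) φ := by
  unfold vl
  rw [hv_map, Functor.map_comp, ConcreteCategory.comp_apply, map_gm, iV_app, gm_res']

theorem vl_mV (hx : x ∈ V) {A : DMod X} (a : Γ(X, V)) (φ : sgV (PV V) ⟶ A) :
    vl hx (sgmV (mV a) ≫ φ) = X.presheaf.germ V x hx a • vl hx φ := by
  unfold vl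
  rw [hv_map, Functor.map_comp, ConcreteCategory.comp_apply, map_gm, mV_app, gm_smul, map_smul]

theorem pvHom_gm {M : X.Modules} (hx : x ∈ V) (s : Γ(M, V)) :
    (stalkMod X x).map (pvHom s) (gm (PV V) x V hx (eV V)) = gm M x V hx s := by
  rw [map_gm, pvHom_app]

/-- every germ of a cohomology class is the value of a map from some `P_V` -/
theorem exists_vl {V0 : X.Opens} (hx : x ∈ V0) (A : DMod X) (h : (stalkMod X x).obj (hh 0 A)) :
    ∃ (V : X.Opens) (_ : V ≤ V0) (hx : x ∈ V) (φ : sgV (PV V) ⟶ A), vl hx φ = h := by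
  obtain ⟨K, ⟨e⟩⟩ : ∃ K, Nonempty (A ≅ DerivedCategory.Q.obj K) :=
    ⟨_, ⟨(DerivedCategory.Q.objObjPreimageIso A).symm⟩⟩
  have hep : Epi (K.homologyπ 0 ≫ (fI K).hom ≫
    (DerivedCategory.homologyFunctor X.Modules 0).map e.inv) := inferInstance
  obtain ⟨h1, hh1⟩ := stalk_surj_of_epi (K.homologyπ 0 ≫ (fI K).hom ≫
    (DerivedCategory.homologyFunctor X.Modules 0).map e.inv) x h
  obtain ⟨V, hV, hxV, z, rfl⟩ := exists_le_gm _ x h1 hx
  have hz : (pvHom z ≫ K.iCycles 0) ≫ K.d 0 1 = 0 := by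
    rw [Category.assoc, HomologicalComplex.iCycles_d, comp_zero]
  refine ⟨V, hV, hxV, cyc K (pvHom z ≫ K.iCycles 0) hz ≫ e.inv, ?_⟩
  unfold vl
  rw [hv_comp, hv_cyc]
  have h2 : K.liftCycles (pvHom z ≫ K.iCycles 0) 1 (by simp) hz = pvHom z := by
    rw [← cancel_mono (K.iCycles 0), HomologicalComplex.liftCycles_i]
  rw [h2, Category.assoc, Category.assoc, Functor.map_comp, ConcreteCategory.comp_apply, pvHom_gm]
  exact hh1

theorem toCycles_exact (L : CochainComplex X.Modules ℤ) :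
    (ShortComplex.mk (L.toCycles (-1) 0) (L.homologyπ 0)
      (L.toCycles_comp_homologyπ (-1) 0)).Exact :=
  ShortComplex.exact_of_g_is_cokernel _ (L.homologyIsCokernel (-1) 0 (by simp))

/-- a map from `P_V` with value zero is zero on a smaller open set -/
theorem exists_res_eq_zero (hx : x ∈ V) {A : DMod X} (φ : sgV (PV V) ⟶ A) (h0 : vl hx φ = 0) :
    ∃ (V' : X.Opens) (h : V' ≤ V) (_ : x ∈ V'), sgmV (iV h) ≫ φ = 0 := by
  obtain ⟨L, e, g, h, hg⟩ := exists_cyc φ
  have h1 := hv_cyc L g h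
  rw [← hg, hv_comp] at h1
  set z := L.liftCycles g 1 (by simp) h with hz
  have h2 : (stalkMod X x).map (L.homologyπ 0) ((stalkMod X x).map z
      (gm (PV V) x V hx (eV V))) = 0 := by
    have hi : Function.Injective ((stalkMod X x).map (fI L).hom) := by
      have : Mono ((stalkMod X x).map (fI L).hom) := inferInstance
      exact (ModuleCat.mono_iff_injective _).1 this
    apply hi
    rw [map_zero, ← ConcreteCategory.comp_apply, ← ConcreteCategory.comp_apply,
      ← Functor.map_comp, ← Functor.map_comp]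
    rw [← h1, Functor.map_comp, ConcreteCategory.comp_apply]
    change (stalkMod X x).map _ (vl hx φ) = 0
    rw [h0, map_zero]
  obtain ⟨s, hs⟩ := stalk_exact _ (toCycles_exact L) x _ h2
  obtain ⟨V1, hV1, hx1, w, rfl⟩ := exists_le_gm _ x s hx
  change (stalkMod X x).map (L.toCycles (-1) 0) (gm _ x V1 hx1 w) = _ at hs
  rw [map_gm, map_gm] at hs
  obtain ⟨W, hxW, hW1, hW2, hW⟩ := gm_eq _ x hx1 hx _ _ hs
  refine ⟨W, hW2, hxW, ?_⟩
  have h3 : pvHom (res _ hW1 w) ≫ L.d (-1) 0 = iV hW2 ≫ g := by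
    apply pv_ext
    rw [comp_app_apply, comp_app_apply, pvHom_app, iV_app]
    have h4 : L.toCycles (-1) 0 ≫ L.iCycles 0 = L.d (-1) 0 := L.toCycles_i (-1) 0
    have h5 : z ≫ L.iCycles 0 = g := L.liftCycles_i _ _ _ _
    rw [← h4, ← h5, comp_app_apply, comp_app_apply]
    congr 1
    rw [app_res, app_res]
    exact hW
  have h6 : (iV hW2 ≫ g) ≫ L.d 0 1 = 0 := by rw [Category.assoc, h, comp_zero]
  rw [← cancel_mono e.hom, zero_comp, Category.assoc, hg]
  exact (map_cyc (iV hW2) L g h h6).trans (cyc_eq_zero L _ h6 _ h3)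

end M21
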